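import Pool.Agent.Work.MP_cdf40b_al.Defs

namespace Pool.Agent.Work.MP_cdf40b_al

/-- layered hexagon weight on the points `x` with `Σ x = ν₀+ν₁+ν₂`, `ν₂ ≤ xᵢ ≤ ν₀`. -/
def hex (n0 n1 n2 : ℕ) (x : Fin 3 → ℕ) : ℕ :=
  if x 0 + x 1 + x 2 = n0 + n1 + n2 ∧ ∀ i, n2 ≤ x i ∧ x i ≤ n0 then
    min (min (min (x 0 - n2) (n0 - x 0))
      (min (min (x 1 - n2) (n0 - x 1)) (min (x 2 - n2) (n0 - x 2)))) (min (n0 - n1) (n1 - n2)) + 1
  else 0

/-- the weight of a hexagon. -/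
def wt (b c k s : ℕ) : ℕ :=
  if s = 0 then min k (b + c) + 1 - c else if c ≤ k + s ∧ k + s ≤ b + c then 1 else 0

/-- the multiplicity for the highest weight `a ω₁ + b ω₂ + c ω₃`. -/
def mu3 (a b c : ℕ) (x : Fin 3 → ℕ) : ℕ :=
  ∑ k ∈ Finset.range (b + 2 * c + 1), ∑ t ∈ Finset.range (a + 1), ∑ s ∈ Finset.range (c + 1),
    if t + s ≤ c ∧ k + s ≤ b + c + t then
      wt b c k s * hex (a + b + 2 * c - s - t - k) (b + c + t - k) s x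
    else 0

end Pool.Agent.Work.MP_cdf40b_al
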