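import Mathlib
import Pool.Agent.Work.MP_cdf40b_al.Hedge.Defs

-- merged part: Pool.Agent.Work.MP_cdf40b_al.Hedge.Ser
section
namespace Pool.Agent.Work.MP_cdf40b_al.Hedge

open PowerSeries Finset

/-- power series in three variables -/
abbrev R : Type := PowerSeries (PowerSeries (PowerSeries ℤ))

noncomputable def cf (F : R) (i j k : ℕ) : ℤ := coeff k (coeff j (coeff i F))

noncomputable def mk3 (f : ℕ → ℕ → ℕ → ℤ) : R := mk fun i => mk fun j => mk fun k => f i j k

noncomputable def z0 : R := X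
noncomputable def z1 : R := C X
noncomputable def z2 : R := C (C X)

@[simp] theorem cf_mk3 (f : ℕ → ℕ → ℕ → ℤ) (i j k : ℕ) : cf (mk3 f) i j k = f i j k := by
  simp [cf, mk3]

theorem ext3 {F G : R} (h : ∀ i j k, cf F i j k = cf G i j k) : F = G := by
  ext i j k
  exact h i j k

theorem cf_add (F G : R) (i j k : ℕ) : cf (F + G) i j k = cf F i j k + cf G i j k := by simp [cf]
theorem cf_sub (F G : R) (i j k : ℕ) : cf (F - G) i j k = cf F i j k - cf G i j k := by simp [cf]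
theorem cf_zero (i j k : ℕ) : cf 0 i j k = 0 := by simp [cf]

theorem cf_one (i j k : ℕ) : cf 1 i j k = if i = 0 ∧ j = 0 ∧ k = 0 then 1 else 0 := by
  simp only [cf, coeff_one]
  by_cases hi : i = 0 <;> by_cases hj : j = 0 <;> by_cases hk : k = 0 <;> simp [hi, hj, hk, coeff_one]

theorem cf_z0 (F : R) (i j k : ℕ) :
    cf (z0 * F) i j k = if i = 0 then 0 else cf F (i - 1) j k := by
  cases i <;> simp [cf, z0, coeff_succ_X_mul]

theorem cf_z1 (F : R) (i j k : ℕ) :
    cf (z1 * F) i j k = if j = 0 then 0 else cf F i (j - 1) k := by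
  cases j <;> simp [cf, z1, coeff_succ_X_mul]

theorem cf_z2 (F : R) (i j k : ℕ) :
    cf (z2 * F) i j k = if k = 0 then 0 else cf F i j (k - 1) := by
  cases k <;> simp [cf, z2, coeff_succ_X_mul]

theorem cf_mul (F G : R) (i j k : ℕ) : cf (F * G) i j k =
    ∑ a ∈ range (i + 1), ∑ b ∈ range (j + 1), ∑ c ∈ range (k + 1),
      cf F a b c * cf G (i - a) (j - b) (k - c) := by
  simp only [cf, coeff_mul, map_sum, Nat.sum_antidiagonal_eq_sum_range_succ_mk]

/-- Kronecker delta -/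
def dl (a i : ℕ) : ℤ := if a = i then 1 else 0

theorem cf_mono (a b c i j k : ℕ) :
    cf (z0 ^ a * z1 ^ b * z2 ^ c) i j k = dl a i * dl b j * dl c k := by
  have : z0 ^ a * z1 ^ b * z2 ^ c = X ^ a * C (X ^ b * C (X ^ c)) := by
    simp [z0, z1, z2, mul_assoc]
  rw [this]
  simp only [cf, coeff_mul_C, coeff_X_pow, dl, ite_mul, one_mul, zero_mul]
  by_cases h1 : i = a
  · rw [if_pos h1, if_pos h1.symm, coeff_mul_C, coeff_X_pow]
    by_cases h2 : j = b
    · rw [if_pos h2, if_pos h2.symm, one_mul, coeff_X_pow]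
      simp [eq_comm]
    · simp [h2, Ne.symm h2]
  · simp [h1, Ne.symm h1]

/-- alternant -/
noncomputable def alt (a b c : ℕ) : R :=
  z0 ^ a * z1 ^ b * z2 ^ c - z0 ^ a * z1 ^ c * z2 ^ b - z0 ^ b * z1 ^ a * z2 ^ c +
    z0 ^ b * z1 ^ c * z2 ^ a + z0 ^ c * z1 ^ a * z2 ^ b - z0 ^ c * z1 ^ b * z2 ^ a

/-- determinant of deltas -/
def dd (a b c i j k : ℕ) : ℤ :=
  dl a i * dl b j * dl c k - dl a i * dl c j * dl b k - dl b i * dl a j * dl c k +
    dl b i * dl c j * dl a k + dl c i * dl a j * dl b k - dl c i * dl b j * dl a k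

theorem cf_alt (a b c i j k : ℕ) : cf (alt a b c) i j k = dd a b c i j k := by
  simp only [alt, dd, cf_add, cf_sub, cf_mono]

noncomputable def del : R := (z0 - z1) * (z0 - z2) * (z1 - z2)

theorem del_eq : del = alt 2 1 0 := by unfold del alt; ring

def Anti (F : R) : Prop :=
  (∀ i j k, cf F j i k = -cf F i j k) ∧ ∀ i j k, cf F i k j = -cf F i j k

def Symm (F : R) : Prop :=
  (∀ i j k, cf F j i k = cf F i j k) ∧ ∀ i j k, cf F i k j = cf F i j k

theorem anti_del : Anti del := by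
  constructor <;> intro i j k <;> simp only [del_eq, cf_alt, dd] <;> ring

theorem Anti.mul {F G : R} (hF : Anti F) (hG : Symm G) : Anti (F * G) := by
  constructor
  · intro i j k
    rw [cf_mul, cf_mul, sum_comm]
    simp only [← sum_neg_distrib]
    refine sum_congr rfl fun a _ => sum_congr rfl fun b _ => sum_congr rfl fun c _ => ?_
    rw [hF.1, hG.1]; ring
  · intro i j k
    rw [cf_mul, cf_mul]
    simp only [← sum_neg_distrib]
    refine sum_congr rfl fun a _ => ?_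
    rw [sum_comm]
    refine sum_congr rfl fun b _ => sum_congr rfl fun c _ => ?_
    rw [hF.2, hG.2]; ring

/-- complete symmetric function -/
noncomputable def hh (n : ℕ) : R := mk3 fun i j k => if i + j + k = n then 1 else 0

/-- `h_{n-1}` -/
noncomputable def hm (n : ℕ) : R := mk3 fun i j k => if i + j + k + 1 = n then 1 else 0

noncomputable def TT : R := mk3 fun i j k =>
  if (i + j + k) % 2 = 0 ∧ i ≤ j + k ∧ j ≤ i + k ∧ k ≤ i + j then 1 else 0

noncomputable def gg (n : ℕ) : R := hh n - z0 * (z1 * (z2 * hm n))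

theorem symm_hh (n : ℕ) : Symm (hh n) := by
  constructor <;> intro i j k <;> simp only [hh, cf_mk3] <;> split_ifs <;> omega

theorem symm_TT : Symm TT := by
  constructor <;> intro i j k <;> simp only [TT, cf_mk3] <;> split_ifs <;> omega

theorem symm_gg (n : ℕ) : Symm (gg n) := by
  constructor <;> intro i j k <;>
    simp only [gg, hh, hm, cf_mk3, cf_sub, cf_z0, cf_z1, cf_z2] <;> split_ifs <;> lia

noncomputable def Pz : R := (1 - z0 * z1) * (1 - z0 * z2) * (1 - z1 * z2)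

theorem Pz_TT : Pz * TT = 1 := by
  have h1 : TT - z0 * (z1 * TT) = mk3 fun i j k => if k = i + j then 1 else 0 := by
    apply ext3; intro i j k
    simp only [TT, cf_mk3, cf_sub, cf_z0, cf_z1]; split_ifs <;> lia
  have h2 : (mk3 fun i j k => if k = i + j then 1 else 0) -
      z0 * (z2 * mk3 fun i j k => if k = i + j then 1 else 0) =
      mk3 fun i j k => if i = 0 ∧ k = j then 1 else 0 := by
    apply ext3; intro i j k
    simp only [cf_mk3, cf_sub, cf_z0, cf_z2]; split_ifs <;> omega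
  have h3 : (mk3 fun i j k => if i = 0 ∧ k = j then 1 else 0) -
      z1 * (z2 * mk3 fun i j k => if i = 0 ∧ k = j then 1 else 0) = 1 := by
    apply ext3; intro i j k
    simp only [cf_mk3, cf_sub, cf_z1, cf_z2, cf_one]; split_ifs <;> omega
  rw [← h2, ← h1] at h3
  rw [← h3, Pz]; ring

theorem hm_zero : hm 0 = 0 := by
  apply ext3; intro i j k; simp [hm, cf_zero]

theorem hm_succ (n : ℕ) : hm (n + 1) = hh n := by
  apply ext3; intro i j k; simp [hm, hh]

theorem del_hh (n : ℕ) :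
    del * hh n = z0 ^ (n + 2) * (z1 - z2) - z1 ^ (n + 2) * (z0 - z2) + z2 ^ (n + 2) * (z0 - z1) := by
  let h2 : ℕ → R := fun n => mk3 fun i j k => if i = 0 ∧ j + k = n then 1 else 0
  have e1 : ∀ n, h2 (n + 1) = z1 * h2 n + z0 ^ 0 * z1 ^ 0 * z2 ^ (n + 1) := by
    intro n
    apply ext3; intro i j k
    simp only [h2, cf_mk3, cf_add, cf_z1, cf_mono, dl]; split_ifs <;> omega
  have e0 : h2 0 = 1 := by
    apply ext3; intro i j k
    simp only [h2, cf_mk3, cf_one]; split_ifs <;> omega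
  have e2 : ∀ n, (z1 - z2) * h2 n = z1 ^ (n + 1) - z2 ^ (n + 1) := by
    intro n
    induction n with
    | zero => rw [e0]; ring
    | succ n ih => rw [e1]; linear_combination z1 * ih
  induction n with
  | zero =>
    have : hh 0 = 1 := by
      apply ext3; intro i j k
      simp only [hh, cf_mk3, cf_one]; split_ifs <;> omega
    rw [this, del]; ring
  | succ n ih =>
    have : hh (n + 1) = z0 * hh n + h2 (n + 1) := by
      apply ext3; intro i j k
      simp only [hh, h2, cf_mk3, cf_add, cf_z0]; split_ifs <;> omega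
    rw [this]
    unfold del at *
    linear_combination z0 * ih + (z0 - z1) * (z0 - z2) * e2 (n + 1)

noncomputable def k0 : R := (z1 - z2) * (1 - z1 * z2)
noncomputable def k1 : R := -((z0 - z2) * (1 - z0 * z2))
noncomputable def k2 : R := (z0 - z1) * (1 - z0 * z1)

theorem del_gg (n : ℕ) :
    del * gg n = k0 * z0 ^ (n + 2) + k1 * z1 ^ (n + 2) + k2 * z2 ^ (n + 2) := by
  unfold gg k0 k1 k2
  cases n with
  | zero => rw [hm_zero]; linear_combination del_hh 0
  | succ n => rw [hm_succ]; linear_combination del_hh (n + 1) - z0 * z1 * z2 * del_hh n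

end Pool.Agent.Work.MP_cdf40b_al.Hedge
end

-- merged part: Pool.Agent.Work.MP_cdf40b_al.Hedge.Pieri
section
namespace Pool.Agent.Work.MP_cdf40b_al.Hedge

open Finset

theorem anti_sq (s : Finset ℕ) (f : ℕ → ℕ → ℤ) (h : ∀ a b, f b a = -f a b) :
    ∑ a ∈ s, ∑ b ∈ s, f a b = 0 := by
  have h1 : ∑ a ∈ s, ∑ b ∈ s, f a b = -∑ a ∈ s, ∑ b ∈ s, f a b := by
    conv_lhs => rw [sum_comm]
    simp only [← sum_neg_distrib]
    exact sum_congr rfl fun a _ => sum_congr rfl fun b _ => h _ _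
  omega

theorem cancel_lo {p q : ℕ} (hpq : q ≤ p) (f : ℕ → ℕ → ℤ) (h : ∀ a b, f b a = -f a b) :
    ∑ a ∈ range p, ∑ b ∈ range q, f a b = ∑ a ∈ Ico q p, ∑ b ∈ range q, f a b := by
  rw [← sum_range_add_sum_Ico _ hpq, anti_sq _ f h, zero_add]

theorem cancel_hi {p q N : ℕ} (hpq : q ≤ p) (hN : p ≤ N) (f : ℕ → ℕ → ℤ)
    (h : ∀ a b, f b a = -f a b) :
    ∑ a ∈ Ico p N, ∑ b ∈ Ico q N, f a b = ∑ a ∈ Ico p N, ∑ b ∈ Ico q p, f a b := by
  simp only [← sum_Ico_consecutive _ hpq hN, sum_add_distrib]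
  rw [anti_sq _ f h, add_zero]

/-- Schur coefficient -/
noncomputable def cc (F : R) (a b c : ℕ) : ℤ := cf F (a + 2) (b + 1) c

theorem pieri_gen {F : R} (hF : Anti F) (P : ℕ → Prop) [DecidablePred P] {l0 l1 l2 : ℕ}
    (h1 : l1 ≤ l0) (h2 : l2 ≤ l1) :
    cc (F * mk3 fun i j k => if P (i + j + k) then 1 else 0) l0 l1 l2 =
      ∑ a ∈ Ico l1 (l0 + 1), ∑ b ∈ Ico l2 (l1 + 1), ∑ c ∈ range (l2 + 1),
        if P (l0 + l1 + l2 - (a + b + c)) then cc F a b c else 0 := by
  set φ : ℕ → ℕ → ℕ → ℤ := fun a b c =>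
    if P (l0 + l1 + l2 + 3 - (a + b + c)) then cf F a b c else 0 with hφ
  have a1 : ∀ a b c, φ b a c = -φ a b c := by
    intro a b c
    simp only [hφ, add_comm b a, hF.1 a b c]; split_ifs <;> simp
  have a2 : ∀ a b c, φ a c b = -φ a b c := by
    intro a b c
    simp only [hφ, add_right_comm a c b, hF.2 a b c]; split_ifs <;> simp
  have e1 : cc (F * mk3 fun i j k => if P (i + j + k) then 1 else 0) l0 l1 l2 =
      ∑ a ∈ range (l0 + 2 + 1), ∑ b ∈ range (l1 + 1 + 1), ∑ c ∈ range (l2 + 1), φ a b c := by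
    rw [cc, cf_mul]
    refine sum_congr rfl fun a ha => sum_congr rfl fun b hb => sum_congr rfl fun c hc => ?_
    rw [mem_range] at ha hb hc
    have : l0 + 2 - a + (l1 + 1 - b) + (l2 - c) = l0 + l1 + l2 + 3 - (a + b + c) := by omega
    simp only [cf_mk3, this, hφ, mul_ite, mul_one, mul_zero]
  rw [e1, cancel_lo (by omega) _ (fun a b => by simp only [a1 a b, sum_neg_distrib]),
    show l1 + 1 + 1 = l1 + 2 from rfl, show l0 + 2 + 1 = l0 + 1 + 2 by omega, ← sum_Ico_add']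
  refine sum_congr rfl fun a _ => ?_
  rw [cancel_lo (by omega) _ (a2 (a + 2)), show l1 + 2 = l1 + 1 + 1 from rfl, ← sum_Ico_add']
  refine sum_congr rfl fun b _ => sum_congr rfl fun c _ => ?_
  have : l0 + l1 + l2 + 3 - (a + 2 + (b + 1) + c) = l0 + l1 + l2 - (a + b + c) := by omega
  simp only [hφ, this, cc]

/-- supported on partitions with two rows -/
def Flat (F : R) : Prop := ∀ a b c, b ≤ a → c + 1 ≤ b → cc F a b (c + 1) = 0

theorem pieri_flat {F : R} (hF : Anti F) (hf : Flat F) (P : ℕ → Prop) [DecidablePred P]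
    {l0 l1 l2 : ℕ} (h1 : l1 ≤ l0) (h2 : l2 ≤ l1) :
    cc (F * mk3 fun i j k => if P (i + j + k) then 1 else 0) l0 l1 l2 =
      ∑ a ∈ Ico l1 (l0 + 1), ∑ b ∈ Ico l2 (l1 + 1),
        if P (l0 + l1 + l2 - (a + b)) then cc F a b 0 else 0 := by
  rw [pieri_gen hF P h1 h2]
  refine sum_congr rfl fun a ha => sum_congr rfl fun b hb => ?_
  rw [mem_Ico] at ha hb
  rw [sum_range_succ', sum_eq_zero, zero_add, add_zero]
  intro c hc
  rw [mem_range] at hc
  rw [hf a b c (by omega) (by omega), ite_self]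

theorem pieri_hh {F : R} (hF : Anti F) (hf : Flat F) (n : ℕ) {l0 l1 l2 : ℕ} (h1 : l1 ≤ l0)
    (h2 : l2 ≤ l1) : cc (F * hh n) l0 l1 l2 = ∑ a ∈ Ico l1 (l0 + 1), ∑ b ∈ Ico l2 (l1 + 1),
      if a + b + n = l0 + l1 + l2 then cc F a b 0 else 0 := by
  rw [hh, pieri_flat hF hf (· = n) h1 h2]
  refine sum_congr rfl fun a ha => sum_congr rfl fun b hb => if_congr ?_ rfl rfl
  rw [mem_Ico] at ha hb
  omega

theorem pieri_hm {F : R} (hF : Anti F) (hf : Flat F) (n : ℕ) {l0 l1 l2 : ℕ} (h1 : l1 ≤ l0)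
    (h2 : l2 ≤ l1) : cc (F * hm n) l0 l1 l2 = ∑ a ∈ Ico l1 (l0 + 1), ∑ b ∈ Ico l2 (l1 + 1),
      if a + b + n = l0 + l1 + l2 + 1 then cc F a b 0 else 0 := by
  rw [hm, pieri_flat hF hf (· + 1 = n) h1 h2]
  refine sum_congr rfl fun a ha => sum_congr rfl fun b hb => if_congr ?_ rfl rfl
  rw [mem_Ico] at ha hb
  omega

theorem dual_raw {F : R} (hF : Anti F) {l0 l1 l2 : ℕ} (h1 : l1 ≤ l0) (h2 : l2 ≤ l1) :
    cf (F * TT) l0 l1 l2 = ∑ k ∈ range (l0 + l1 + l2 + 1), ∑ a ∈ Ico (l0 - k) (l0 + l1 + l2 + 1),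
      ∑ b ∈ Ico (l1 - k) (l0 - k), ∑ c ∈ Ico (l2 - k) (l1 - k),
        if a + b + c + 2 * k = l0 + l1 + l2 then cf F a b c else 0 := by
  set N := l0 + l1 + l2 + 1 with hN
  set φ : ℕ → ℕ → ℕ → ℕ → ℤ := fun k a b c =>
    if a + b + c + 2 * k = l0 + l1 + l2 then cf F a b c else 0 with hφ
  have a1 : ∀ k a b c, φ k b a c = -φ k a b c := by
    intro k a b c
    simp only [hφ, add_comm b a, hF.1 a b c]; split_ifs <;> simp
  have a2 : ∀ k a b c, φ k a c b = -φ k a b c := by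
    intro k a b c
    simp only [hφ, add_right_comm a c b, hF.2 a b c]; split_ifs <;> simp
  have ico : ∀ (l k : ℕ) (f : ℕ → ℤ),
      ∑ a ∈ Ico (l - k) N, f a = ∑ a ∈ range N, if l ≤ a + k then f a else 0 := by
    intro l k f
    rw [← sum_filter]
    refine sum_congr ?_ fun _ _ => rfl
    ext a
    simp only [mem_Ico, mem_filter, mem_range]; omega
  have rng : ∀ (l : ℕ) (f : ℕ → ℤ), l < N →
      ∑ a ∈ range (l + 1), f a = ∑ a ∈ range N, if a ≤ l then f a else 0 := by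
    intro l f hl
    rw [← sum_filter]
    refine sum_congr ?_ fun _ _ => rfl
    ext a
    simp only [mem_filter, mem_range]; omega
  have e1 : cf (F * TT) l0 l1 l2 = ∑ k ∈ range N, ∑ a ∈ Ico (l0 - k) N,
      ∑ b ∈ Ico (l1 - k) N, ∑ c ∈ Ico (l2 - k) N, φ k a b c := by
    rw [cf_mul, rng l0 _ (by omega)]
    simp only [ico, rng l1 _ (by omega), rng l2 _ (by omega), ite_sum_zero]
    rw [sum_comm (s := range N) (t := range N) (f := fun k a => ∑ b ∈ range N, ∑ c ∈ range N,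
      if l0 ≤ a + k then if l1 ≤ b + k then if l2 ≤ c + k then φ k a b c else 0 else 0 else 0)]
    refine sum_congr rfl fun a _ => ?_
    rw [sum_comm (s := range N) (t := range N) (f := fun k b => ∑ c ∈ range N,
      if l0 ≤ a + k then if l1 ≤ b + k then if l2 ≤ c + k then φ k a b c else 0 else 0 else 0)]
    refine sum_congr rfl fun b _ => ?_
    rw [sum_comm (s := range N) (t := range N) (f := fun k c =>
      if l0 ≤ a + k then if l1 ≤ b + k then if l2 ≤ c + k then φ k a b c else 0 else 0 else 0)]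
    refine sum_congr rfl fun c _ => ?_
    rw [sum_eq_single ((l0 + l1 + l2 - (a + b + c)) / 2)]
    · simp only [TT, cf_mk3, hφ, mul_ite, mul_one, mul_zero]
      split_ifs <;> first | rfl | omega
    · intro k _ hk
      simp only [hφ]
      split_ifs <;> first | rfl | omega
    · intro hk
      rw [mem_range] at hk
      omega
  rw [e1]
  refine sum_congr rfl fun k _ => ?_
  have e2 : ∀ a, ∑ b ∈ Ico (l1 - k) N, ∑ c ∈ Ico (l2 - k) N, φ k a b c =
      ∑ b ∈ Ico (l1 - k) N, ∑ c ∈ Ico (l2 - k) (l1 - k), φ k a b c := fun a =>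
    cancel_hi (by omega) (by omega) _ (a2 k a)
  simp only [e2]
  exact cancel_hi (by omega) (by omega) _ (fun a b => by simp only [a1 k a b, sum_neg_distrib])

theorem dual_pieri {F : R} (hF : Anti F) (a b c : ℕ) :
    cc (F * TT) (a + b + c) (b + c) c = ∑ k ∈ range (b + c + 1), ∑ t ∈ range (a + 1),
      ∑ s ∈ range (c + 1), if t + s ≤ c ∧ c ≤ k + s ∧ k + s ≤ b + c then
        cc F (a + b + 2 * c - s - t - k) (b + c + t - k) s else 0 := by
  rw [cc, dual_raw hF (by omega) (by omega)]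
  symm
  refine (sum_congr rfl fun k hk => ?_).trans (sum_subset (range_mono (by omega)) fun k _ hk => ?_)
  · rw [mem_range] at hk
    rw [sum_comm (s := Ico _ _), sum_Ico_eq_sum_range,
      show a + b + c + 2 - k - (b + c + 1 - k) = a + 1 by omega]
    refine sum_congr rfl fun t ht => ?_
    rw [mem_range] at ht
    rw [sum_comm (s := Ico _ _)]
    have e : ∀ s, (∑ m ∈ Ico (a + b + c + 2 - k) (a + b + c + 2 + (b + c + 1) + c + 1),
        if m + (b + c + 1 - k + t) + s + 2 * k = a + b + c + 2 + (b + c + 1) + c then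
          cf F m (b + c + 1 - k + t) s else 0) =
        if t + s ≤ c then cc F (a + b + 2 * c - s - t - k) (b + c + t - k) s else 0 := by
      intro s
      split_ifs with h
      · rw [sum_eq_single (a + b + 2 * c - s - t - k + 2), if_pos (by omega), cc]
        · congr 1; omega
        · intro m _ hm
          exact if_neg (by omega)
        · intro hm
          rw [mem_Ico] at hm
          omega
      · refine sum_eq_zero fun m hm => if_neg ?_
        rw [mem_Ico] at hm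
        omega
    simp only [e]
    rw [← sum_filter, ← sum_filter]
    refine sum_congr ?_ fun _ _ => rfl
    ext s
    simp only [mem_filter, mem_range, mem_Ico]; omega
  · rw [mem_range] at hk
    rw [show b + c + 1 - k = 0 by omega]
    simp

end Pool.Agent.Work.MP_cdf40b_al.Hedge
end

-- merged part: Pool.Agent.Work.MP_cdf40b_al.Hedge.Kostka
section
namespace Pool.Agent.Work.MP_cdf40b_al.Hedge

open Finset

def Rel (F H : R) : Prop :=
  (∀ a b c, b ≤ a → c + 1 ≤ b → cc F a b (c + 1) = cc H a b (c + 1)) ∧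
    (∀ a, cc F a 0 0 = cc H a 0 0) ∧
    ∀ a b, b ≤ a → cc F (a + 1) (b + 1) 0 = cc H (a + 1) (b + 1) 0 + cc F a b 0

theorem cc_gg (F : R) (n a b c : ℕ) : cc (F * gg n) a b c = cc (F * hh n) a b c -
    if c = 0 then 0 else cf (F * hm n) (a + 1) b (c - 1) := by
  have : F * gg n = F * hh n - z0 * (z1 * (z2 * (F * hm n))) := by unfold gg; ring
  rw [this, cc, cf_sub, cf_z0, cf_z1, cf_z2]
  simp [cc]

theorem Rel.step {F H : R} (h : Rel F H) (hF : Anti F) (hH : Anti H) (hf : Flat H) (n : ℕ) :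
    Rel (F * gg n) (H * hh n) := by
  have hf' : Flat F := fun a b c h1 h2 => by rw [h.1 a b c h1 h2, hf a b c h1 h2]
  refine ⟨fun a b c h1 h2 => ?_, fun a => ?_, fun a b h1 => ?_⟩
  · obtain ⟨q, rfl⟩ : ∃ q, b = q + 1 := ⟨b - 1, by omega⟩
    obtain ⟨p, rfl⟩ : ∃ p, a = p + 1 := ⟨a - 1, by omega⟩
    rw [cc_gg, if_neg (by omega), add_tsub_cancel_right]
    change _ - cc (F * hm n) p q c = _
    rw [pieri_hh hF hf' n h1 h2, pieri_hh hH hf n h1 h2, pieri_hm hF hf' n (by omega) (by omega),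
      ← sum_Ico_add' _ q (p + 1) 1, ← sum_Ico_add' _ q (p + 1) 1, ← sum_sub_distrib]
    refine sum_congr rfl fun a ha => ?_
    rw [← sum_Ico_add' _ c (q + 1) 1, ← sum_Ico_add' _ c (q + 1) 1, ← sum_sub_distrib]
    refine sum_congr rfl fun b hb => ?_
    rw [mem_Ico] at ha hb
    rw [h.2.2 a b (by omega)]
    split_ifs <;> omega
  · rw [cc_gg, if_pos rfl, sub_zero, pieri_hh hF hf' n (by omega) le_rfl,
      pieri_hh hH hf n (by omega) le_rfl]
    simp [h.2.1]
  · rw [cc_gg, cc_gg, if_pos rfl, if_pos rfl, sub_zero, sub_zero,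
      pieri_hh hF hf' n (by omega) (by omega), pieri_hh hH hf n (by omega) (by omega),
      pieri_hh hF hf' n h1 (by omega), ← sum_Ico_add' _ b (a + 1) 1,
      ← sum_Ico_add' _ b (a + 1) 1, ← sum_add_distrib]
    refine sum_congr rfl fun p hp => ?_
    rw [mem_Ico] at hp
    simp only [← range_eq_Ico]
    rw [sum_range_succ' _ (b + 1), sum_range_succ' _ (b + 1), h.2.1,
      add_right_comm (∑ k ∈ range (b + 1), _), ← sum_add_distrib]
    congr 1
    refine sum_congr rfl fun q hq => ?_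
    rw [mem_range] at hq
    rw [h.2.2 p q (by omega)]
    split_ifs <;> omega

theorem cc_del {a b c : ℕ} (h1 : b ≤ a) :
    cc del a b c = if a = 0 ∧ b = 0 ∧ c = 0 then 1 else 0 := by
  have t : ∀ a b c i j k, dl a i * dl b j * dl c k =
      if a = i ∧ b = j ∧ c = k then 1 else 0 := fun a b c i j k => by
    simp only [dl, ite_and, ite_mul, one_mul, zero_mul]
  simp only [cc, del_eq, cf_alt, dd, t]
  rw [if_neg (c := 2 = a + 2 ∧ 0 = b + 1 ∧ 1 = c) (by omega),
    if_neg (c := 1 = a + 2 ∧ 2 = b + 1 ∧ 0 = c) (by omega),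
    if_neg (c := 1 = a + 2 ∧ 0 = b + 1 ∧ 2 = c) (by omega),
    if_neg (c := 0 = a + 2 ∧ 2 = b + 1 ∧ 1 = c) (by omega),
    if_neg (c := 0 = a + 2 ∧ 1 = b + 1 ∧ 2 = c) (by omega)]
  simp only [sub_zero, add_zero]
  exact if_congr (by omega) rfl rfl

theorem cc_delT (a b c : ℕ) :
    cc (del * TT) (a + b + c) (b + c) c = if a = 0 ∧ c = 0 then 1 else 0 := by
  rw [dual_pieri anti_del]
  have e : ∀ k t s, t ∈ range (a + 1) → (if t + s ≤ c ∧ c ≤ k + s ∧ k + s ≤ b + c then
      cc del (a + b + 2 * c - s - t - k) (b + c + t - k) s else 0) =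
      if s = 0 then if t = 0 then if k = b then if a = 0 ∧ c = 0 then 1 else 0 else 0 else 0
        else 0 := by
    intro k t s ht
    rw [mem_range] at ht
    by_cases h : t + s ≤ c ∧ c ≤ k + s ∧ k + s ≤ b + c
    · rw [if_pos h, cc_del (by omega)]
      split_ifs <;> omega
    · rw [if_neg h]
      split_ifs <;> omega
  rw [sum_congr rfl fun k _ => sum_congr rfl fun t ht => sum_congr rfl fun s _ => e k t s ht]
  simp only [sum_ite_eq', mem_range, sum_ite_irrel, sum_const_zero]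
  split_ifs <;> omega

theorem rel_zero : Rel (del * TT) del := by
  have key : ∀ a b c, b ≤ a → c ≤ b → cc (del * TT) a b c = if a = b ∧ c = 0 then 1 else 0 := by
    intro a b c h1 h2
    have := cc_delT (a - b) (b - c) c
    rw [show a - b + (b - c) + c = a by omega, show b - c + c = b by omega] at this
    rw [this]
    split_ifs <;> omega
  refine ⟨fun a b c h1 h2 => ?_, fun a => ?_, fun a b h1 => ?_⟩
  · rw [key _ _ _ h1 h2, cc_del h1]; simp
  · rw [key _ _ _ (by omega) le_rfl, cc_del (by omega)]; simp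
  · rw [key _ _ _ (by omega) (by omega), key _ _ _ h1 (by omega), cc_del (by omega)]; simp

theorem flat_del : Flat del := fun a b c h _ => by rw [cc_del h]; simp

theorem cc_H1 (n : ℕ) {a b c : ℕ} (h1 : b ≤ a) (h2 : c ≤ b) :
    cc (del * hh n) a b c = if a = n ∧ b = 0 then 1 else 0 := by
  rw [pieri_hh anti_del flat_del n h1 h2]
  have e : ∀ p ∈ Ico b (a + 1), ∀ q ∈ Ico c (b + 1),
      (if p + q + n = a + b + c then cc del p q 0 else 0) =
      if q = 0 then if p = 0 then if n = a + b + c then 1 else 0 else 0 else 0 := by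
    intro p hp q hq
    rw [mem_Ico] at hp hq
    rw [cc_del (by omega)]
    split_ifs <;> omega
  rw [sum_congr rfl fun p hp => sum_congr rfl fun q hq => e p hp q hq]
  simp only [sum_ite_eq', mem_Ico, sum_ite_irrel, sum_const_zero]
  split_ifs <;> omega

theorem flat_H1 (n : ℕ) : Flat (del * hh n) := fun a b c h h' => by
  rw [cc_H1 n h h', if_neg (by omega)]

theorem cc_H2 (n m : ℕ) {a b c : ℕ} (h1 : b ≤ a) (h2 : c ≤ b) :
    cc (del * hh n * hh m) a b c = if c = 0 ∧ a + b = n + m ∧ b ≤ n ∧ n ≤ a then 1 else 0 := by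
  rw [pieri_hh (anti_del.mul (symm_hh n)) (flat_H1 n) m h1 h2]
  have e : ∀ p ∈ Ico b (a + 1), ∀ q ∈ Ico c (b + 1),
      (if p + q + m = a + b + c then cc (del * hh n) p q 0 else 0) =
      if q = 0 then if p = n then if n + m = a + b + c then 1 else 0 else 0 else 0 := by
    intro p hp q hq
    rw [mem_Ico] at hp hq
    rw [cc_H1 n (by omega) (by omega)]
    split_ifs <;> omega
  rw [sum_congr rfl fun p hp => sum_congr rfl fun q hq => e p hp q hq]
  simp only [sum_ite_eq', mem_Ico, sum_ite_irrel, sum_const_zero]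
  split_ifs <;> omega

theorem flat_H2 (n m : ℕ) : Flat (del * hh n * hh m) := fun a b c h h' => by
  rw [cc_H2 n m h h', if_neg (by omega)]

theorem cc_H3 (x : Fin 3 → ℕ) {a b c : ℕ} (h1 : b ≤ a) (h2 : c ≤ b) :
    cc (del * hh (x 0) * hh (x 1) * hh (x 2)) a b c = hex a b c x := by
  rw [pieri_hh ((anti_del.mul (symm_hh _)).mul (symm_hh _)) (flat_H2 _ _) _ h1 h2, sum_comm]
  have e : ∀ q ∈ Ico c (b + 1), (∑ p ∈ Ico b (a + 1),
      if p + q + x 2 = a + b + c then cc (del * hh (x 0) * hh (x 1)) p q 0 else 0) =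
      if x 0 + x 1 + x 2 = a + b + c ∧ x 0 + x 1 ≤ q + a ∧ q ≤ x 0 ∧ q ≤ x 1 ∧
        q + b ≤ x 0 + x 1 then 1 else 0 := by
    intro q hq
    rw [mem_Ico] at hq
    have e2 : ∀ p ∈ Ico b (a + 1),
        (if p + q + x 2 = a + b + c then cc (del * hh (x 0) * hh (x 1)) p q 0 else 0) =
        if p = x 0 + x 1 - q then
          if x 0 + x 1 + x 2 = a + b + c ∧ q ≤ x 0 ∧ q ≤ x 1 then 1 else 0 else 0 := by
      intro p hp
      rw [mem_Ico] at hp
      rw [cc_H2 _ _ (by omega) (by omega)]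
      split_ifs <;> omega
    rw [sum_congr rfl e2, sum_ite_eq']
    simp only [mem_Ico]
    split_ifs <;> omega
  rw [sum_congr rfl e, sum_boole]
  by_cases h : x 0 + x 1 + x 2 = a + b + c
  · have : filter (fun q => x 0 + x 1 + x 2 = a + b + c ∧ x 0 + x 1 ≤ q + a ∧ q ≤ x 0 ∧ q ≤ x 1 ∧
        q + b ≤ x 0 + x 1) (Ico c (b + 1)) = Ico (max c (x 0 + x 1 - a))
          (min (min (b + 1) (x 0 + 1)) (min (x 1 + 1) (x 0 + x 1 + 1 - b))) := by
      ext q
      simp only [mem_filter, mem_Ico]; omega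
    rw [this, Nat.card_Ico]
    simp only [hex, Fin.forall_fin_succ, IsEmpty.forall_iff, and_true, Fin.succ_zero_eq_one,
      Fin.succ_one_eq_two, Nat.cast_inj]
    split_ifs with h3
    · apply le_antisymm
      · rw [← Nat.sub_le_iff_le_add]
        simp only [le_min_iff]
        (clear * - h h1 h2 h3; omega)
      · generalize hm : min (min (min (x 0 - c) (a - x 0)) (min (min (x 1 - c) (a - x 1))
          (min (x 2 - c) (a - x 2)))) (min (a - b) (b - c)) = m
        have := hm.ge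
        simp only [le_min_iff] at this
        clear hm
        (clear * - h h1 h2 h3 this; lia)
    · omega
  · simp [hex, h]

/-- the series before the last multiplication -/
noncomputable def F3 (x : Fin 3 → ℕ) : R := del * TT * gg (x 0) * gg (x 1) * gg (x 2)

theorem anti_F3 (x : Fin 3 → ℕ) : Anti (F3 x) :=
  (((anti_del.mul symm_TT).mul (symm_gg _)).mul (symm_gg _)).mul (symm_gg _)

theorem rel_F3 (x : Fin 3 → ℕ) : Rel (F3 x) (del * hh (x 0) * hh (x 1) * hh (x 2)) :=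
  ((rel_zero.step (anti_del.mul symm_TT) anti_del flat_del _).step
    ((anti_del.mul symm_TT).mul (symm_gg _)) (anti_del.mul (symm_hh _)) (flat_H1 _) _).step
    (((anti_del.mul symm_TT).mul (symm_gg _)).mul (symm_gg _))
    ((anti_del.mul (symm_hh _)).mul (symm_hh _)) (flat_H2 _ _) _

theorem cc_F3_zero (x : Fin 3 → ℕ) (b : ℕ) : ∀ a, b ≤ a →
    cc (F3 x) a b 0 = ∑ j ∈ range (b + 1), (hex (a - j) (b - j) 0 x : ℤ) := by
  induction b with
  | zero => intro a _; simp [(rel_F3 x).2.1, cc_H3]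
  | succ b ih =>
    intro a ha
    obtain ⟨p, rfl⟩ : ∃ p, a = p + 1 := ⟨a - 1, by omega⟩
    rw [(rel_F3 x).2.2 p b (by omega), ih p (by omega), cc_H3 x ha (by omega),
      sum_range_succ' _ (b + 1)]
    simp [add_comm]

theorem cc_final (a b c : ℕ) (x : Fin 3 → ℕ) :
    cc (F3 x * TT) (a + b + c) (b + c) c = mu3 a b c x := by
  rw [dual_pieri (anti_F3 x), mu3]
  push_cast
  rw [sum_comm, sum_comm (s := range (b + 2 * c + 1))]
  refine sum_congr rfl fun t ht => ?_
  rw [sum_comm, sum_comm (s := range (b + 2 * c + 1))]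
  refine sum_congr rfl fun s hs => ?_
  rw [mem_range] at ht hs
  by_cases h : t + s ≤ c
  swap
  · simp [h]
  simp only [h, true_and]
  cases s with
  | succ s =>
    refine (sum_congr rfl fun k _ => ?_).trans
      (sum_subset (range_mono (by omega : b + c + 1 ≤ b + 2 * c + 1)) fun k _ hk => ?_)
    · simp only [wt, Nat.succ_ne_zero, if_false]
      by_cases h1 : c ≤ k + (s + 1) ∧ k + (s + 1) ≤ b + c
      · rw [if_pos h1, if_pos (by omega), if_pos h1, (rel_F3 x).1 _ _ _ (by omega) (by omega),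
          cc_H3 x (by omega) (by omega)]
        simp
      · simp [h1]
    · rw [mem_range] at hk
      simp only [wt, Nat.succ_ne_zero, if_false]
      rw [if_neg (by omega : ¬(c ≤ k + (s + 1) ∧ k + (s + 1) ≤ b + c))]
      simp
  | zero =>
    have e : ∀ k ∈ range (b + c + 1), (if c ≤ k + 0 ∧ k + 0 ≤ b + c then
        cc (F3 x) (a + b + 2 * c - 0 - t - k) (b + c + t - k) 0 else 0) =
        ∑ m ∈ range (b + 2 * c + 1), if m + 0 ≤ b + c + t then (if c ≤ k ∧ k ≤ m then 1 else 0) *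
          (hex (a + b + 2 * c - 0 - t - m) (b + c + t - m) 0 x : ℤ) else 0 := by
      intro k hk
      rw [mem_range] at hk
      by_cases h1 : c ≤ k
      · rw [if_pos (by omega), cc_F3_zero x _ _ (by omega), range_eq_Ico,
          ← sum_congr rfl (fun j _ => by
            rw [show a + b + 2 * c - 0 - t - (j + k) = a + b + 2 * c - 0 - t - k - j by omega,
              show b + c + t - (j + k) = b + c + t - k - j by omega] : ∀ j ∈ _,
              (hex (a + b + 2 * c - 0 - t - (j + k)) (b + c + t - (j + k)) 0 x : ℤ) = _),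
          sum_Ico_add' (fun m => (hex (a + b + 2 * c - 0 - t - m) (b + c + t - m) 0 x : ℤ))]
        simp only [h1, true_and, ite_mul, one_mul, zero_mul, ← ite_and]
        rw [← sum_filter]
        refine sum_congr ?_ fun _ _ => rfl
        ext m
        simp only [mem_filter, mem_range, mem_Ico]; omega
      · simp [h1]
    rw [sum_congr rfl e, sum_comm]
    refine sum_congr rfl fun m _ => ?_
    rw [sum_ite_irrel, sum_const_zero, ← sum_mul, sum_boole]
    have : filter (fun k => c ≤ k ∧ k ≤ m) (range (b + c + 1)) = Ico c (min m (b + c) + 1) := by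
      ext k
      simp only [mem_filter, mem_range, mem_Ico]; omega
    rw [this, Nat.card_Ico]
    simp [wt]

end Pool.Agent.Work.MP_cdf40b_al.Hedge
end

-- merged part: Pool.Agent.Work.MP_cdf40b_al.Hedge.Vand
section
namespace Pool.Agent.Work.MP_cdf40b_al.Hedge

section ops
variable {α β : Type} [AddCommGroup α] [AddCommGroup β]

/-- adjacency operator of the half line -/
def sh (u : ℕ → α) (n : ℕ) : α := u (n + 1) + if n = 0 then 0 else u (n - 1)

def A01 (f : ℕ → ℕ → ℕ → α) (i j k : ℕ) : α := sh (fun i => f i j k) i - sh (fun j => f i j k) j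
def A02 (f : ℕ → ℕ → ℕ → α) (i j k : ℕ) : α := sh (fun i => f i j k) i - sh (fun k => f i j k) k
def A12 (f : ℕ → ℕ → ℕ → α) (i j k : ℕ) : α := sh (fun j => f i j k) j - sh (fun k => f i j k) k

def Vd (f : ℕ → ℕ → ℕ → α) : ℕ → ℕ → ℕ → α := A01 (A02 (A12 f))

theorem map_sh (φ : α →+ β) (u : ℕ → α) (n : ℕ) : φ (sh u n) = sh (fun n => φ (u n)) n := by
  simp only [sh, map_add]; split_ifs <;> simp

theorem map_Vd (φ : α →+ β) (f : ℕ → ℕ → ℕ → α) (i j k : ℕ) :
    φ (Vd f i j k) = Vd (fun i j k => φ (f i j k)) i j k := by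
  simp only [Vd, A01, A02, A12, map_sub, map_sh]

theorem sh_sub (u v : ℕ → α) (n : ℕ) : sh (fun n => u n - v n) n = sh u n - sh v n := by
  simp only [sh]; split_ifs <;> abel

theorem Vd_sub (f g : ℕ → ℕ → ℕ → α) (i j k : ℕ) :
    Vd (fun i j k => f i j k - g i j k) i j k = Vd f i j k - Vd g i j k := by
  simp only [Vd, A01, A02, A12, sh_sub]; abel

theorem down {P : ℕ → Prop} (B : ℕ) (h1 : ∀ i, B ≤ i → P i)
    (h2 : ∀ i, P (i + 1) → P (i + 2) → P i) (i : ℕ) : P i := by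
  have : ∀ d i, B ≤ i + d → P i := by
    intro d
    induction d with
    | zero => exact h1
    | succ d ih => exact fun i hi => h2 i (ih _ (by omega)) (ih _ (by omega))
  exact this B i (by omega)

theorem Vd_inj {f : ℕ → ℕ → ℕ → α} (B : ℕ) (h0 : ∀ i j k, B ≤ i → f i j k = 0)
    (h1 : ∀ i j k, B ≤ j → f i j k = 0) (h : ∀ i j k, Vd f i j k = 0) (i j k : ℕ) :
    f i j k = 0 := by
  have b1 : ∀ i j k, B ≤ i → A12 f i j k = 0 := fun i j k hi => by simp [A12, sh, h0 i _ _ hi]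
  have b2 : ∀ i j k, B + 1 ≤ i → A02 (A12 f) i j k = 0 := fun i j k hi => by
    simp [A02, sh, b1 i _ _ (by omega), b1 (i + 1) _ _ (by omega), b1 (i - 1) _ _ (by omega)]
  have c2 : ∀ i j k, A02 (A12 f) i j k = 0 := by
    refine down (B + 1) (fun i hi j k => b2 i j k hi) fun i e1 e2 j k => ?_
    simpa [Vd, A01, sh, e1, e2] using h (i + 1) j k
  have c1 : ∀ i j k, A12 f i j k = 0 := by
    refine down B (fun i hi j k => b1 i j k hi) fun i e1 e2 j k => ?_
    simpa [A02, sh, e1, e2] using c2 (i + 1) j k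
  revert i k
  refine down (P := fun j => ∀ i k, f i j k = 0) B (fun j hj i k => h1 i j k hj)
    (fun j e1 e2 i k => ?_) j
  simpa [A12, sh, e1, e2] using c1 i (j + 1) k

end ops

theorem sh_mul (u : ℕ → R) (c : R) (n : ℕ) : sh (fun n => u n * c) n = sh u n * c := by
  simp only [sh]; split_ifs <;> ring

theorem mul_sh (u : ℕ → R) (c : R) (n : ℕ) : sh (fun n => c * u n) n = c * sh u n := by
  simp only [sh]; split_ifs <;> ring

noncomputable def Wn (j n : ℕ) : R := k0 * (1 + z0 ^ 2) ^ j * z0 ^ (2 - j) * z0 ^ n +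
  k1 * (1 + z1 ^ 2) ^ j * z1 ^ (2 - j) * z1 ^ n + k2 * (1 + z2 ^ 2) ^ j * z2 ^ (2 - j) * z2 ^ n

theorem sh_W0 (n : ℕ) : sh (Wn 0) n = Wn 1 n := by
  cases n <;> simp [sh, Wn, k0, k1, k2] <;> ring

theorem sh_W1 (n : ℕ) : sh (Wn 1) n = Wn 2 n := by
  cases n <;> simp [sh, Wn, k0, k1, k2] <;> ring

theorem det_aux (a0 a1 a2 b0 b1 b2 c0 c1 c2 p0 p1 p2 q0 q1 q2 r0 r1 r2 : R) :
    (c0 * p0 + c1 * p1 + c2 * p2) * (b0 * q0 + b1 * q1 + b2 * q2) * (a0 * r0 + a1 * r1 + a2 * r2) -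
    (c0 * p0 + c1 * p1 + c2 * p2) * (a0 * q0 + a1 * q1 + a2 * q2) * (b0 * r0 + b1 * r1 + b2 * r2) -
    (b0 * p0 + b1 * p1 + b2 * p2) * (c0 * q0 + c1 * q1 + c2 * q2) * (a0 * r0 + a1 * r1 + a2 * r2) +
    (b0 * p0 + b1 * p1 + b2 * p2) * (a0 * q0 + a1 * q1 + a2 * q2) * (c0 * r0 + c1 * r1 + c2 * r2) +
    (a0 * p0 + a1 * p1 + a2 * p2) * (c0 * q0 + c1 * q1 + c2 * q2) * (b0 * r0 + b1 * r1 + b2 * r2) -
    (a0 * p0 + a1 * p1 + a2 * p2) * (b0 * q0 + b1 * q1 + b2 * q2) * (c0 * r0 + c1 * r1 + c2 * r2) =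
    (c0 * b1 * a2 - c0 * a1 * b2 - b0 * c1 * a2 + b0 * a1 * c2 + a0 * c1 * b2 - a0 * b1 * c2) *
      (p0 * q1 * r2 - p0 * r1 * q2 - q0 * p1 * r2 + q0 * r1 * p2 + r0 * p1 * q2 - r0 * q1 * p2) := by
  ring

theorem Vd_W (i j k : ℕ) :
    Vd (fun i j k => Wn 0 i * Wn 0 j * Wn 0 k) i j k = (del * Pz) ^ 2 * alt i j k := by
  have e : Vd (fun i j k => Wn 0 i * Wn 0 j * Wn 0 k) i j k =
      Wn 2 i * Wn 1 j * Wn 0 k - Wn 2 i * Wn 0 j * Wn 1 k - Wn 1 i * Wn 2 j * Wn 0 k +
        Wn 1 i * Wn 0 j * Wn 2 k + Wn 0 i * Wn 2 j * Wn 1 k - Wn 0 i * Wn 1 j * Wn 2 k := by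
    simp only [Vd, A01, A02, A12, sh_sub, sh_mul, mul_sh, sh_W0, sh_W1]
    ring
  rw [e]
  simp only [Wn]
  rw [det_aux, alt]
  congr 1
  simp only [k0, k1, k2, del, Pz]
  ring

theorem del_ne : del ≠ 0 := by
  intro h
  have := cc_del (a := 0) (b := 0) (c := 0) le_rfl
  rw [h, cc, cf_zero] at this
  simp at this

/-- coefficient extraction -/
noncomputable def cfH (i j k : ℕ) : R →+ ℂ where
  toFun F := cf F i j k
  map_zero' := by simp [cf_zero]
  map_add' F G := by simp [cf_add]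

theorem Vd_mu3 (a b c i j k : ℕ) :
    Vd (fun i j k => (mu3 a b c ![i, j, k] : ℂ)) i j k =
      dd i j k (a + b + c + 2) (b + c + 1) c := by
  have h1 : Vd (fun i j k => F3 ![i, j, k] * TT) i j k = alt i j k := by
    have hne : (del * Pz) ^ 2 ≠ 0 :=
      pow_ne_zero _ (mul_ne_zero del_ne (left_ne_zero_of_mul_eq_one Pz_TT))
    apply mul_left_cancel₀ hne
    have e : ∀ n, Wn 0 n = del * gg n := fun n => by rw [del_gg, Wn]; ring
    have e2 : (fun i j k => Wn 0 i * Wn 0 j * Wn 0 k) =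
        fun i j k => AddMonoidHom.mulLeft ((del * Pz) ^ 2) (F3 ![i, j, k] * TT) := by
      funext i j k
      simp only [AddMonoidHom.coe_mulLeft, F3, e, Matrix.cons_val_zero, Matrix.cons_val_one,
        Matrix.cons_val]
      linear_combination (-del ^ 3 * gg i * gg j * gg k * (Pz * TT + 1)) * Pz_TT
    rw [← Vd_W, e2, ← map_Vd, AddMonoidHom.coe_mulLeft]
  have h2 := map_Vd (cfH (a + b + c + 2) (b + c + 1) c) (fun i j k => F3 ![i, j, k] * TT) i j k
  rw [h1] at h2
  have h3 : ∀ x, cfH (a + b + c + 2) (b + c + 1) c (F3 x * TT) = mu3 a b c x := fun x => by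
    have := cc_final a b c x
    change ((cc (F3 x * TT) (a + b + c) (b + c) c : ℤ) : ℂ) = _
    rw [this]; simp
  simp only [h3] at h2
  rw [← h2, ← cf_alt]
  rfl

theorem mu3_bd (a b c : ℕ) (x : Fin 3 → ℕ) (p : Fin 3) (h : a + b + 2 * c + 1 ≤ x p) :
    mu3 a b c x = 0 := by
  refine Finset.sum_eq_zero fun k _ => Finset.sum_eq_zero fun t _ => Finset.sum_eq_zero fun s _ => ?_
  rw [hex, if_neg (c := _ ∧ ∀ i, _) (fun h1 => by have := h1.2 p; omega)]
  simp

/-- uniqueness -/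
theorem eq_mu3 (a b c : ℕ) (m : ℕ → ℕ → ℕ → ℂ) (B : ℕ) (h0 : ∀ i j k, B ≤ i → m i j k = 0)
    (h1 : ∀ i j k, B ≤ j → m i j k = 0)
    (h : ∀ i j k, Vd m i j k = dd i j k (a + b + c + 2) (b + c + 1) c) (i j k : ℕ) :
    m i j k = mu3 a b c ![i, j, k] := by
  rw [← sub_eq_zero]
  refine Vd_inj (f := fun i j k => m i j k - mu3 a b c ![i, j, k]) (B + (a + b + 2 * c + 1))
    (fun i j k hi => ?_) (fun i j k hi => ?_) (fun i j k => ?_) i j k
  · rw [h0 i j k (by omega), mu3_bd a b c _ 0 (by simp; omega)]; simp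
  · rw [h1 i j k (by omega), mu3_bd a b c _ 1 (by simp; omega)]; simp
  · rw [Vd_sub, h, Vd_mu3, sub_self]

end Pool.Agent.Work.MP_cdf40b_al.Hedge
end

-- merged part: Pool.Agent.Work.MP_cdf40b_al.Hedge.Freud
section
namespace Pool.Agent.Work.MP_cdf40b_al.Hedge

open AddMonoidAlgebra

abbrev G3 : Type := Fin 3 → ℤ

/-- Laurent polynomials in three variables -/
abbrev A3 : Type := AddMonoidAlgebra ℂ G3

noncomputable def ee (a b c : ℤ) : A3 := single ![a, b, c] 1

theorem ee_mul (a b c a' b' c' : ℤ) : ee a b c * ee a' b' c' = ee (a + a') (b + b') (c + c') := by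
  simp [ee]

theorem ee_zero : ee 0 0 0 = 1 := by
  have : (![0, 0, 0] : G3) = 0 := by decide
  rw [ee, this]; rfl

theorem co_ee (a b c : ℤ) (F : A3) (μ : G3) :
    (ee a b c * F).coeff μ = F.coeff (μ + ![-a, -b, -c]) := by
  rw [ee, coeff_single_mul_apply, one_mul, add_comm]
  simp

theorem co_int (n : ℤ) (F : A3) (μ : G3) : ((n : A3) * F).coeff μ = n * F.coeff μ := by
  rw [← zsmul_eq_mul, coeff_smul_apply, zsmul_eq_mul]

theorem co_sub (F G : A3) (μ : G3) : (F - G).coeff μ = F.coeff μ - G.coeff μ := by simp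
theorem co_add (F G : A3) (μ : G3) : (F + G).coeff μ = F.coeff μ + G.coeff μ := by simp

/-- Euler derivations -/
noncomputable def Dd (i : Fin 3) : A3 →+ A3 where
  toFun F := ofCoeff (Finsupp.onFinset F.coeff.support (fun μ => μ i * F.coeff μ) fun μ h =>
    Finsupp.mem_support_iff.2 (right_ne_zero_of_mul h))
  map_zero' := by ext; simp
  map_add' F G := by ext; simp [mul_add]

theorem co_Dd (i : Fin 3) (F : A3) (μ : G3) : (Dd i F).coeff μ = μ i * F.coeff μ := rfl

theorem Dd_single (i : Fin 3) (μ : G3) (r : ℂ) : Dd i (single μ r) = single μ (μ i * r) := by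
  ext ν
  simp only [co_Dd, coeff_single, Finsupp.single_apply]
  split_ifs with h
  · rw [h]
  · simp

theorem Dd_mul (i : Fin 3) (F G : A3) : Dd i (F * G) = Dd i F * G + F * Dd i G := by
  induction F using induction_linear with
  | zero => simp
  | add F F' h h' => simp only [add_mul, map_add, h, h']; ring
  | single μ r =>
    induction G using induction_linear with
    | zero => simp
    | add F F' h h' => simp only [mul_add, map_add, h, h']; ring
    | single ν s =>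
      simp only [single_mul_single, Dd_single, ← single_add, Pi.add_apply]
      congr 1
      push_cast
      ring

theorem Dd_ee (i : Fin 3) (a b c : ℤ) : Dd i (ee a b c) = ((![a, b, c] i : ℤ) : A3) * ee a b c := by
  rw [ee, Dd_single, ← zsmul_eq_mul, ← zsmul_eq_mul, smul_single]

theorem Dd_int (i : Fin 3) (n : ℤ) (F : A3) : Dd i (n * F) = n * Dd i F := by
  rw [← zsmul_eq_mul, map_zsmul, zsmul_eq_mul]

/-- the shifted Laplacian -/
noncomputable def Lp (F : A3) : A3 :=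
  Dd 0 (Dd 0 F) + Dd 1 (Dd 1 F) + Dd 2 (Dd 2 F) + 6 * Dd 0 F + 4 * Dd 1 F + 2 * Dd 2 F

/-- the Casimir eigenvalue -/
def cas (μ : G3) : ℤ := μ 0 ^ 2 + μ 1 ^ 2 + μ 2 ^ 2 + 6 * μ 0 + 4 * μ 1 + 2 * μ 2

theorem co_Lp (F : A3) (μ : G3) : (Lp F).coeff μ = cas μ * F.coeff μ := by
  have h : ∀ n : ℤ, ∀ F : A3, ((n : A3) * F).coeff μ = n * F.coeff μ := fun n F => co_int n F μ
  have h6 := h 6
  have h4 := h 4
  have h2 := h 2
  push_cast at h6 h4 h2
  simp only [Lp, co_add, co_Dd, h6, h4, h2, cas]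
  push_cast
  ring

theorem Lp_add (F G : A3) : Lp (F + G) = Lp F + Lp G := by simp only [Lp, map_add]; ring
theorem Lp_sub (F G : A3) : Lp (F - G) = Lp F - Lp G := by simp only [Lp, map_sub]; ring

theorem Lp_ee (a b c : ℤ) : Lp (ee a b c) = (cas ![a, b, c] : A3) * ee a b c := by
  simp only [Lp, Dd_ee, Dd_int, cas]
  push_cast
  ring

noncomputable def er (a b c : ℤ) : A3 := ee (-a) (-b) (-c)
noncomputable def fr (a b c : ℤ) : A3 := 1 - er a b c

theorem Dd_fr (i : Fin 3) (a b c : ℤ) : Dd i (fr a b c) = ((![a, b, c] i : ℤ) : A3) * er a b c := by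
  rw [fr, map_sub, ← ee_zero, er, Dd_ee, Dd_ee]
  fin_cases i <;> simp

/-- the Weyl denominator -/
noncomputable def Den : A3 := fr 1 (-1) 0 * fr 0 1 (-1) * fr 0 0 2 * fr 1 0 (-1) * fr 0 1 1 *
  fr 1 0 1 * fr 0 2 0 * fr 1 1 0 * fr 2 0 0

noncomputable def ym (a b c : ℕ) : A3 := er 1 (-1) 0 ^ a * er 0 1 (-1) ^ b * er 0 0 2 ^ c

theorem ee_pow (a b c : ℤ) (n : ℕ) : ee a b c ^ n = ee (n * a) (n * b) (n * c) := by
  induction n with
  | zero => simp [ee_zero]
  | succ n ih => rw [pow_succ, ih, ee_mul]; congr 1 <;> push_cast <;> ring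

theorem ym_eq (a b c : ℕ) : ym a b c = ee (-a) (a - b) (b - 2 * c) := by
  simp only [ym, er, ee_pow, ee_mul]
  congr 1 <;> ring

theorem Lp_Den : Lp Den = 0 := by
  have h : Den =
      ym 0 0 0 - ym 0 0 1 - ym 0 1 0 + ym 0 1 2 + ym 0 3 1 - ym 0 3 3 - ym 0 4 2 + ym 0 4 3 -
      ym 1 0 0 + ym 1 0 1 + ym 1 2 0 - ym 1 2 3 - ym 1 4 1 + ym 1 4 4 + ym 1 6 3 - ym 1 6 4 +
      ym 2 1 0 - ym 2 1 2 - ym 2 2 0 + ym 2 2 3 + ym 2 6 2 - ym 2 6 5 - ym 2 7 3 + ym 2 7 5 -
      ym 4 3 1 + ym 4 3 3 + ym 4 4 1 - ym 4 4 4 - ym 4 8 3 + ym 4 8 6 + ym 4 9 4 - ym 4 9 6 +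
      ym 5 4 2 - ym 5 4 3 - ym 5 6 2 + ym 5 6 5 + ym 5 8 3 - ym 5 8 6 - ym 5 10 5 + ym 5 10 6 -
      ym 6 6 3 + ym 6 6 4 + ym 6 7 3 - ym 6 7 5 - ym 6 9 4 + ym 6 9 6 + ym 6 10 5 - ym 6 10 6 := by
    have e : ∀ a b c : ℕ, fr a (b - a) (2 * c - b) = 1 - ym a b c := fun a b c => by
      rw [ym_eq, fr, er]; congr 2 <;> ring
    have e1 := e 1 1 0
    have e2 := e 0 1 1
    have e3 := e 1 1 1
    have e4 := e 0 2 1
    have e5 := e 1 2 1
    have e6 := e 2 2 1
    norm_num at e1 e2 e3 e4 e5 e6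
    rw [Den, e1, e2, e3, e4, e5, e6]
    simp only [fr, ym]
    ring
  rw [h]
  simp [Lp_add, Lp_sub, ym_eq, Lp_ee, cas]

/-- the trace relation of a root -/
def RootRel (d t : G3 → ℂ) (a b c a' b' c' : ℤ) : Prop :=
  ∀ μ : G3, t μ - t (μ + ![a, b, c]) =
    ((a' * (μ 0 + a) + b' * (μ 1 + b) + c' * (μ 2 + c) : ℤ) : ℂ) * d (μ + ![a, b, c])

theorem RootRel.ring {ch T : A3} {a b c a' b' c' : ℤ} (h : RootRel ch.coeff T.coeff a b c a' b' c') :
    fr a b c * T = er a b c * (a' * Dd 0 ch + b' * Dd 1 ch + c' * Dd 2 ch) := by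
  ext μ
  rw [fr, sub_mul, one_mul, er, co_sub, co_ee, co_ee, neg_neg, neg_neg, neg_neg, h]
  simp only [co_add, co_int, co_Dd]
  simp
  ring

theorem freud {ch R01 R02 R12 S01 S02 S12 L0 L1 L2 : A3} {κ : ℤ}
    (r01 : RootRel ch.coeff R01.coeff 1 (-1) 0 1 (-1) 0)
    (r02 : RootRel ch.coeff R02.coeff 1 0 (-1) 1 0 (-1))
    (r12 : RootRel ch.coeff R12.coeff 0 1 (-1) 0 1 (-1))
    (s01 : RootRel ch.coeff S01.coeff 1 1 0 1 1 0)
    (s02 : RootRel ch.coeff S02.coeff 1 0 1 1 0 1)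
    (s12 : RootRel ch.coeff S12.coeff 0 1 1 0 1 1)
    (l0 : RootRel ch.coeff L0.coeff 2 0 0 1 0 0)
    (l1 : RootRel ch.coeff L1.coeff 0 2 0 0 1 0)
    (l2 : RootRel ch.coeff L2.coeff 0 0 2 0 0 1)
    (hC : ∀ μ, κ * ch.coeff μ = cas μ * ch.coeff μ +
      (2 * (R01.coeff μ + R02.coeff μ + R12.coeff μ + S01.coeff μ + S02.coeff μ + S12.coeff μ) +
        4 * (L0.coeff μ + L1.coeff μ + L2.coeff μ))) :
    Lp (Den * ch) = κ * (Den * ch) := by
  have hC' : κ * ch = Lp ch + (((2 : ℤ) : A3) * (R01 + R02 + R12 + S01 + S02 + S12) +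
      ((4 : ℤ) : A3) * (L0 + L1 + L2)) := by
    ext μ
    simp only [co_add, co_int, co_Lp, hC]
    push_cast
    rfl
  have e1 : Lp (Den * ch) = Den * Lp ch + ch * Lp Den +
      2 * (Dd 0 Den * Dd 0 ch + Dd 1 Den * Dd 1 ch + Dd 2 Den * Dd 2 ch) := by
    simp only [Lp, Dd_mul, map_add]; ring
  have r01 := r01.ring
  have r02 := r02.ring
  have r12 := r12.ring
  have s01 := s01.ring
  have s02 := s02.ring
  have s12 := s12.ring
  have l0 := l0.ring
  have l1 := l1.ring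
  have l2 := l2.ring
  rw [e1, Lp_Den]
  simp only [Den, Dd_mul, Dd_fr, Matrix.cons_val_zero, Matrix.cons_val_one, Matrix.cons_val]
  push_cast at *
  generalize fr 1 (-1) 0 = f0 at *
  generalize fr 0 1 (-1) = f1 at *
  generalize fr 0 0 2 = f2 at *
  generalize fr 1 0 (-1) = f3 at *
  generalize fr 0 1 1 = f4 at *
  generalize fr 1 0 1 = f5 at *
  generalize fr 0 2 0 = f6 at *
  generalize fr 1 1 0 = f7 at *
  generalize fr 2 0 0 = f8 at *
  linear_combination (-(f0 * f1 * f2 * f3 * f4 * f5 * f6 * f7 * f8)) * hC' -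
    2 * (f1 * f2 * f3 * f4 * f5 * f6 * f7 * f8) * r01 -
    2 * (f0 * f2 * f3 * f4 * f5 * f6 * f7 * f8) * r12 -
    4 * (f0 * f1 * f3 * f4 * f5 * f6 * f7 * f8) * l2 -
    2 * (f0 * f1 * f2 * f4 * f5 * f6 * f7 * f8) * r02 -
    2 * (f0 * f1 * f2 * f3 * f5 * f6 * f7 * f8) * s12 -
    2 * (f0 * f1 * f2 * f3 * f4 * f6 * f7 * f8) * s02 -
    4 * (f0 * f1 * f2 * f3 * f4 * f5 * f7 * f8) * l1 -
    2 * (f0 * f1 * f2 * f3 * f4 * f5 * f6 * f8) * s01 -
    4 * (f0 * f1 * f2 * f3 * f4 * f5 * f6 * f7) * l0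

end Pool.Agent.Work.MP_cdf40b_al.Hedge
end
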