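import Pool.Agent.Work.MP_cdf40b_al.Hedge.Freud
import Pool.Agent.Work.MP_cdf40b_al.Main

-- merged part: Pool.Agent.Work.MP_cdf40b_al.Hedge.Roots
section
-- merged part: Pool.Agent.Work.MP_cdf40b_al.Hedge.Weyl
section
namespace Pool.Agent.Work.MP_cdf40b_al.Hedge

open AddMonoidAlgebra

/-- dominance order -/
def Dom (μ l : G3) : Prop :=
  μ 0 ≤ l 0 ∧ μ 0 + μ 1 ≤ l 0 + l 1 ∧ μ 0 + μ 1 + μ 2 ≤ l 0 + l 1 + l 2

def Top (F : A3) (l : G3) : Prop := (∀ μ, F.coeff μ ≠ 0 → Dom μ l) ∧ F.coeff l = 1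

theorem Top.mul {F : A3} {l : G3} (h : Top F l) {a b c : ℤ}
    (h1 : 0 ≤ a ∧ 0 ≤ a + b ∧ 0 ≤ a + b + c ∧ 0 < 3 * a + 2 * b + c) : Top (fr a b c * F) l := by
  have e : ∀ μ, (fr a b c * F).coeff μ = F.coeff μ - F.coeff (μ + ![a, b, c]) := fun μ => by
    rw [fr, sub_mul, one_mul, er, co_sub, co_ee, neg_neg, neg_neg, neg_neg]
  refine ⟨fun μ hμ => ?_, ?_⟩
  · rw [e] at hμ
    by_cases h2 : F.coeff μ = 0
    · have := h.1 (μ + ![a, b, c]) fun h3 => hμ (by rw [h2, h3, sub_zero])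
      simp only [Dom, Pi.add_apply, Matrix.cons_val_zero, Matrix.cons_val_one,
        Matrix.cons_val] at this ⊢
      omega
    · exact h.1 μ h2
  · rw [e, h.2, sub_eq_self]
    by_contra h3
    have := h.1 _ h3
    simp only [Dom, Pi.add_apply, Matrix.cons_val_zero, Matrix.cons_val_one,
      Matrix.cons_val] at this
    omega

theorem Top.den {F : A3} {l : G3} (h : Top F l) : Top (Den * F) l := by
  simp only [Den, mul_assoc]
  repeat refine Top.mul ?_ (by decide)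
  exact h

theorem wcf {ch : A3} {l : G3} (h : Top ch l) (hL : Lp (Den * ch) = cas l * (Den * ch))
    (h0 : l 1 ≤ l 0) (h1 : l 2 ≤ l 1) (h2 : 0 ≤ l 2) {μ : G3} (m0 : μ 1 ≤ μ 0) (m1 : μ 2 ≤ μ 1)
    (m2 : 0 ≤ μ 2) : (Den * ch).coeff μ = if μ = l then 1 else 0 := by
  split_ifs with h3
  · rw [h3, h.den.2]
  · by_contra h4
    obtain ⟨d0, d1, d2⟩ := h.den.1 μ h4
    have h5 := congrArg (fun F : A3 => F.coeff μ) hL
    simp only [co_Lp, co_int] at h5
    have h6 : cas μ = cas l := by exact_mod_cast mul_right_cancel₀ h4 h5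
    unfold cas at h6
    have k0 : 0 ≤ (l 0 - μ 0) * (l 0 - l 1 + μ 0 - μ 1) := mul_nonneg (by omega) (by omega)
    have k1 : 0 ≤ (l 0 + l 1 - μ 0 - μ 1) * (l 1 - l 2 + μ 1 - μ 2) :=
      mul_nonneg (by omega) (by omega)
    have k2 : 0 ≤ (l 0 + l 1 + l 2 - μ 0 - μ 1 - μ 2) * (l 2 + μ 2) :=
      mul_nonneg (by omega) (by omega)
    have k3 : (l 0 - μ 0) + (l 0 + l 1 - μ 0 - μ 1) + (l 0 + l 1 + l 2 - μ 0 - μ 1 - μ 2) ≤ 0 := by
      nlinarith
    apply h3
    funext i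
    fin_cases i <;> simp only [Fin.zero_eta, Fin.mk_one, Fin.reduceFinMk] <;> omega

/-- algebra automorphism attached to an additive involution -/
noncomputable def rf (f : G3 → G3) (h1 : Function.Involutive f)
    (h2 : ∀ x y, f (x + y) = f x + f y) : A3 ≃ₐ[ℂ] A3 :=
  domCongr ℂ ℂ (AddEquiv.mk' h1.toPerm h2)

theorem co_rf {f : G3 → G3} (h1 h2) (F : A3) (μ : G3) :
    (rf f h1 h2 F).coeff μ = F.coeff (f μ) := coeff_domCongr _ _ _

theorem rf_single {f : G3 → G3} (h1 h2) (μ : G3) : rf f h1 h2 (single μ 1) = single (f μ) 1 :=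
  domCongr_single _ _ _

noncomputable def s01 : A3 ≃ₐ[ℂ] A3 := rf (fun μ => ![μ 1, μ 0, μ 2])
  (fun x => by funext i; fin_cases i <;> simp) (fun x y => by simp [add_comm])
noncomputable def s12 : A3 ≃ₐ[ℂ] A3 := rf (fun μ => ![μ 0, μ 2, μ 1])
  (fun x => by funext i; fin_cases i <;> simp) (fun x y => by simp [add_comm])
noncomputable def n0 : A3 ≃ₐ[ℂ] A3 := rf (fun μ => ![-μ 0, μ 1, μ 2])
  (fun x => by funext i; fin_cases i <;> simp) (fun x y => by simp [add_comm])
noncomputable def n1 : A3 ≃ₐ[ℂ] A3 := rf (fun μ => ![μ 0, -μ 1, μ 2])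
  (fun x => by funext i; fin_cases i <;> simp) (fun x y => by simp [add_comm])
noncomputable def n2 : A3 ≃ₐ[ℂ] A3 := rf (fun μ => ![μ 0, μ 1, -μ 2])
  (fun x => by funext i; fin_cases i <;> simp) (fun x y => by simp [add_comm])

theorem s01_ee (a b c : ℤ) : s01 (ee a b c) = ee b a c := rf_single _ _ _
theorem s12_ee (a b c : ℤ) : s12 (ee a b c) = ee a c b := rf_single _ _ _
theorem n0_ee (a b c : ℤ) : n0 (ee a b c) = ee (-a) b c := rf_single _ _ _
theorem n1_ee (a b c : ℤ) : n1 (ee a b c) = ee a (-b) c := rf_single _ _ _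
theorem n2_ee (a b c : ℤ) : n2 (ee a b c) = ee a b (-c) := rf_single _ _ _

noncomputable def u0 : A3 := ee 1 0 0 + ee (-1) 0 0
noncomputable def u1 : A3 := ee 0 1 0 + ee 0 (-1) 0
noncomputable def u2 : A3 := ee 0 0 1 + ee 0 0 (-1)
noncomputable def Yf : A3 :=
  (ee 1 0 0 - ee (-1) 0 0) * ((ee 0 1 0 - ee 0 (-1) 0) * (ee 0 0 1 - ee 0 0 (-1)))

theorem den_eq : ee 3 2 1 * Den = (u0 - u1) * ((u0 - u2) * ((u1 - u2) * Yf)) := by
  have e0 : ee 1 0 0 - ee (-1) 0 0 = ee 1 0 0 * fr 2 0 0 := by simp [fr, er, mul_sub, ee_mul]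
  have e1 : ee 0 1 0 - ee 0 (-1) 0 = ee 0 1 0 * fr 0 2 0 := by simp [fr, er, mul_sub, ee_mul]
  have e2 : ee 0 0 1 - ee 0 0 (-1) = ee 0 0 1 * fr 0 0 2 := by simp [fr, er, mul_sub, ee_mul]
  have e3 : u0 - u1 = ee 1 0 0 * fr 1 (-1) 0 * fr 1 1 0 := by
    simp [u0, u1, fr, er, mul_sub, sub_mul, ee_mul]; ring
  have e4 : u0 - u2 = ee 1 0 0 * fr 1 0 (-1) * fr 1 0 1 := by
    simp [u0, u2, fr, er, mul_sub, sub_mul, ee_mul]; ring
  have e5 : u1 - u2 = ee 0 1 0 * fr 0 1 (-1) * fr 0 1 1 := by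
    simp [u1, u2, fr, er, mul_sub, sub_mul, ee_mul]; ring
  have e6 : ee 3 2 1 = ee 1 0 0 * ee 0 1 0 * ee 0 0 1 * ee 1 0 0 * ee 1 0 0 * ee 0 1 0 := by
    simp [ee_mul]
  rw [Yf, e0, e1, e2, e3, e4, e5, e6, Den]
  ring

def Odd3 (F : A3) : Prop := n0 F = -F ∧ n1 F = -F ∧ n2 F = -F

noncomputable def ev (F : A3) (i j k : ℕ) : ℂ := F.coeff ![i + 1, j + 1, k + 1]

theorem vec_add (a b c a' b' c' : ℤ) : ![a, b, c] + ![a', b', c'] = ![a + a', b + b', c + c'] := by
  simp

theorem ev_u0 {F : A3} (h : Odd3 F) (i j k : ℕ) :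
    ev (u0 * F) i j k = sh (fun i => ev F i j k) i := by
  have e : ev (u0 * F) i j k =
      F.coeff ![i, j + 1, k + 1] + F.coeff ![i + 1 + 1, j + 1, k + 1] := by
    simp only [ev, u0, add_mul, co_add, co_ee, vec_add]; simp
  rw [e, add_comm]
  cases i with
  | succ n => simp [sh, ev]
  | zero =>
    have := congrArg (fun F : A3 => F.coeff ![0, j + 1, k + 1]) h.1
    simp only [n0, co_rf] at this
    simp at this
    simp [sh, ev, self_eq_neg.1 this]

theorem ev_u1 {F : A3} (h : Odd3 F) (i j k : ℕ) :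
    ev (u1 * F) i j k = sh (fun j => ev F i j k) j := by
  have e : ev (u1 * F) i j k =
      F.coeff ![i + 1, j, k + 1] + F.coeff ![i + 1, j + 1 + 1, k + 1] := by
    simp only [ev, u1, add_mul, co_add, co_ee, vec_add]; simp
  rw [e, add_comm]
  cases j with
  | succ n => simp [sh, ev]
  | zero =>
    have := congrArg (fun F : A3 => F.coeff ![i + 1, 0, k + 1]) h.2.1
    simp only [n1, co_rf] at this
    simp at this
    simp [sh, ev, self_eq_neg.1 this]

theorem ev_u2 {F : A3} (h : Odd3 F) (i j k : ℕ) :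
    ev (u2 * F) i j k = sh (fun k => ev F i j k) k := by
  have e : ev (u2 * F) i j k =
      F.coeff ![i + 1, j + 1, k] + F.coeff ![i + 1, j + 1, k + 1 + 1] := by
    simp only [ev, u2, add_mul, co_add, co_ee, vec_add]; simp
  rw [e, add_comm]
  cases k with
  | succ n => simp [sh, ev]
  | zero =>
    have := congrArg (fun F : A3 => F.coeff ![i + 1, j + 1, 0]) h.2.2
    simp only [n2, co_rf] at this
    simp at this
    simp [sh, ev, self_eq_neg.1 this]

theorem ev_sub (F G : A3) (i j k : ℕ) : ev (F - G) i j k = ev F i j k - ev G i j k := co_sub _ _ _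

theorem ev_Vd {F : A3} (h : Odd3 F) (i j k : ℕ) :
    Vd (ev F) i j k = ev ((u0 - u1) * ((u0 - u2) * ((u1 - u2) * F))) i j k := by
  have o1 : Odd3 ((u1 - u2) * F) := by
    refine ⟨?_, ?_, ?_⟩ <;>
      simp only [map_mul, map_sub, map_add, u1, u2, n0_ee, n1_ee, n2_ee, h.1, h.2.1, h.2.2,
        neg_zero, neg_neg] <;> ring
  have o2 : Odd3 ((u0 - u2) * ((u1 - u2) * F)) := by
    refine ⟨?_, ?_, ?_⟩ <;>
      simp only [map_mul, map_sub, map_add, u0, u1, u2, n0_ee, n1_ee, n2_ee, h.1, h.2.1, h.2.2,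
        neg_zero, neg_neg] <;> ring
  have e1 : A12 (ev F) = ev ((u1 - u2) * F) := by
    funext i j k; rw [sub_mul, ev_sub, ev_u1 h, ev_u2 h, A12]
  have e2 : A02 (ev ((u1 - u2) * F)) = ev ((u0 - u2) * ((u1 - u2) * F)) := by
    funext i j k; rw [sub_mul u0, ev_sub, ev_u0 o1, ev_u2 o1, A02]
  rw [Vd, e1, e2, sub_mul u0 u1, ev_sub, ev_u0 o2, ev_u1 o2, A01]

theorem anti_ext {f : ℕ → ℕ → ℕ → ℂ} (h1 : ∀ i j k, f j i k = -f i j k)
    (h2 : ∀ i j k, f i k j = -f i j k) (h : ∀ i j k, j < i → k < j → f i j k = 0) (i j k : ℕ) :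
    f i j k = 0 := by
  have a1 : ∀ i k, f i i k = 0 := fun i k => self_eq_neg.1 (h1 i i k)
  have a2 : ∀ i j, f i j j = 0 := fun i j => self_eq_neg.1 (h2 i j j)
  have b : ∀ i j k, k < j → f i j k = 0 := by
    intro i j k hk
    rcases lt_trichotomy j i with c | c | c
    · exact h i j k c hk
    · rw [c, a1]
    · rw [h1 j i k, neg_eq_zero]
      rcases lt_trichotomy k i with c' | c' | c'
      · exact h j i k c c'
      · rw [c', a2]
      · rw [h2 j k i, h j k i hk c', neg_zero]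
  rcases lt_trichotomy k j with c | c | c
  · exact b i j k c
  · rw [c, a2]
  · rw [h2 i k j, b i k j c, neg_zero]

theorem weyl_Vd {ch : A3} (l0 l1 l2 : ℕ) (h01 : l1 ≤ l0) (h12 : l2 ≤ l1)
    (h : Top ch ![l0, l1, l2]) (hL : Lp (Den * ch) = cas ![l0, l1, l2] * (Den * ch))
    (a01 : s01 ch = ch) (a12 : s12 ch = ch) (b0 : n0 ch = ch) (b1 : n1 ch = ch) (b2 : n2 ch = ch)
    (i j k : ℕ) : Vd (ev (Yf * ch)) i j k = dd i j k (l0 + 2) (l1 + 1) l2 := by
  have o : Odd3 (Yf * ch) := by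
    refine ⟨?_, ?_, ?_⟩ <;>
      simp only [map_mul, map_sub, Yf, n0_ee, n1_ee, n2_ee, b0, b1, b2, neg_zero, neg_neg] <;> ring
  rw [ev_Vd o, ← sub_eq_zero]
  set D := (u0 - u1) * ((u0 - u2) * ((u1 - u2) * (Yf * ch))) with hD
  have d1 : s01 D = -D := by
    simp only [hD, map_mul, map_sub, map_add, Yf, u0, u1, u2, s01_ee, a01]; ring
  have d2 : s12 D = -D := by
    simp only [hD, map_mul, map_sub, map_add, Yf, u0, u1, u2, s12_ee, a12]; ring
  refine anti_ext (f := fun i j k => ev D i j k - dd i j k (l0 + 2) (l1 + 1) l2)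
    (fun i j k => ?_) (fun i j k => ?_) (fun i j k hj hk => ?_) i j k
  · have := congrArg (fun F : A3 => F.coeff ![i + 1, j + 1, k + 1]) d1
    simp only [s01, co_rf] at this
    simp only [ev, dd]
    simp at this
    rw [this]; push_cast; ring
  · have := congrArg (fun F : A3 => F.coeff ![i + 1, j + 1, k + 1]) d2
    simp only [s12, co_rf] at this
    simp only [ev, dd]
    simp at this
    rw [this]; push_cast; ring
  · have e : D = ee 3 2 1 * (Den * ch) := by rw [← mul_assoc, den_eq, hD]; ring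
    rw [e, ev, co_ee, vec_add, wcf h hL (by simpa) (by simpa) (by simp) (by simp; omega)
      (by simp; omega) (by simp), sub_eq_zero]
    have e2 : (![(i : ℤ) + 1 + -3, j + 1 + -2, k + 1 + -1] = ![(l0 : ℤ), l1, l2]) ↔
        i = l0 + 2 ∧ j = l1 + 1 ∧ k = l2 := by
      simp only [Matrix.vecCons_inj, and_true]; omega
    have e3 : dd i j k (l0 + 2) (l1 + 1) l2 = if i = l0 + 2 ∧ j = l1 + 1 ∧ k = l2 then 1 else 0 := by
      have t : ∀ a b c i j k, dl a i * dl b j * dl c k =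
          if a = i ∧ b = j ∧ c = k then 1 else 0 := fun a b c i j k => by
        simp only [dl, ite_and, ite_mul, one_mul, zero_mul]
      simp only [dd, t]
      rw [if_neg (c := i = l0 + 2 ∧ k = l1 + 1 ∧ j = l2) (by omega),
        if_neg (c := j = l0 + 2 ∧ i = l1 + 1 ∧ k = l2) (by omega),
        if_neg (c := j = l0 + 2 ∧ k = l1 + 1 ∧ i = l2) (by omega),
        if_neg (c := k = l0 + 2 ∧ i = l1 + 1 ∧ j = l2) (by omega),
        if_neg (c := k = l0 + 2 ∧ j = l1 + 1 ∧ i = l2) (by omega)]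
      simp only [sub_zero, add_zero]
    simp only [e2, e3]
    split_ifs <;> simp

theorem ev_Yf (ch : A3) (i j k : ℕ) : ev (Yf * ch) i j k =
    ch.coeff ![i, j, k] - ch.coeff ![i + 2, j, k] - (ch.coeff ![i, j + 2, k] -
      ch.coeff ![i + 2, j + 2, k]) - (ch.coeff ![i, j, k + 2] - ch.coeff ![i + 2, j, k + 2] -
      (ch.coeff ![i, j + 2, k + 2] - ch.coeff ![i + 2, j + 2, k + 2])) := by
  simp only [ev, Yf, mul_sub, sub_mul, ee_mul, co_sub, co_ee, vec_add]
  simp [add_assoc]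

end Pool.Agent.Work.MP_cdf40b_al.Hedge
end

-- merged part: Pool.Agent.Work.MP_cdf40b_al.Hedge.Model3
section
namespace Pool.Agent.Work.MP_cdf40b_al.Hedge

open MvPolynomial Sum
open Module (End finrank)
open scoped ComplexConjugate Matrix Kronecker

attribute [local instance 100] LieRing.ofAssociativeRing

abbrev V3 : Type := Fin 3 × I
abbrev P3 : Type := MvPolynomial V3 ℂ

/-- the diagonal action on three copies -/
noncomputable def big3 : Matrix I I ℂ →ₗ⁅ℂ⁆ Matrix V3 V3 ℂ where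
  toFun A := (1 : Matrix (Fin 3) (Fin 3) ℂ) ⊗ₖ A
  map_add' A B := Matrix.kronecker_add _ _ _
  map_smul' c A := Matrix.kronecker_smul _ _ _
  map_lie' {A B} := by
    simp only [LieRing.of_associative_ring_bracket, ← Matrix.mul_kronecker_mul, one_mul]
    ext u v
    simp [mul_sub]

theorem big3_apply (A : Matrix I I ℂ) (u v : V3) :
    big3 A u v = if u.1 = v.1 then A u.2 v.2 else 0 := by
  simp [big3, Matrix.one_apply]

theorem big3_ne {A : Matrix I I ℂ} {u v : V3} (h : big3 A u v ≠ 0) : A u.2 v.2 ≠ 0 := by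
  rw [big3_apply] at h
  split_ifs at h with h1
  · exact h
  · exact absurd rfl h

theorem big3_adj (A : Matrix I I ℂ) : (big3 A)ᴴ = big3 Aᴴ := by
  ext u v
  simp only [Matrix.conjTranspose_apply, big3_apply, eq_comm (a := v.1)]
  split_ifs <;> simp

noncomputable def r3 : sp6 →ₗ⁅ℂ⁆ End ℂ P3 := (actL.comp big3).comp sp6.incl

theorem r3_apply (A : sp6) (f : P3) : r3 A f = actL (big3 A.1) f := rfl

theorem r3_adj (A : sp6) (f g : P3) : ip f (r3 A g) = ip (r3 (adj A) f) g := by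
  rw [r3_apply, ip_actL, big3_adj]; rfl

theorem adj_adj (A : sp6) : adj (adj A) = A := Subtype.ext (Matrix.conjTranspose_conjTranspose _)

theorem r3_lie (A B : sp6) (f : P3) : r3 A (r3 B f) = r3 B (r3 A f) + r3 ⁅A, B⁆ f := by
  rw [LieHom.map_lie, LieRing.of_associative_ring_bracket]
  simp

noncomputable def xv (k : Fin 3) (i : I) : P3 := X (k, i)

theorem big_xv (A : Matrix I I ℂ) (k : Fin 3) (j : I) :
    actL (big3 A) (xv k j) = ∑ i, A i j • xv k i := by
  simp [xv, actL_X, Fintype.sum_prod_type, big3_apply]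

noncomputable def m2 : P3 := xv 0 (inl 0) * xv 1 (inl 1) - xv 0 (inl 1) * xv 1 (inl 0)

noncomputable def m3 : P3 :=
  xv 0 (inl 0) * xv 1 (inl 1) * xv 2 (inl 2) - xv 0 (inl 0) * xv 1 (inl 2) * xv 2 (inl 1) -
    xv 0 (inl 1) * xv 1 (inl 0) * xv 2 (inl 2) + xv 0 (inl 1) * xv 1 (inl 2) * xv 2 (inl 0) +
    xv 0 (inl 2) * xv 1 (inl 0) * xv 2 (inl 1) - xv 0 (inl 2) * xv 1 (inl 1) * xv 2 (inl 0)

noncomputable def g3 (a b c : ℕ) : P3 := xv 0 (inl 0) ^ a * m2 ^ b * m3 ^ c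

theorem borel_xv {B : Matrix I I ℂ} (hB : InBorel B) (k : Fin 3) :
    actL (big3 B) (xv k (inl 0)) = B (inl 0) (inl 0) • xv k (inl 0) ∧
    actL (big3 B) (xv k (inl 1)) = B (inl 0) (inl 1) • xv k (inl 0) +
      B (inl 1) (inl 1) • xv k (inl 1) ∧
    actL (big3 B) (xv k (inl 2)) = B (inl 0) (inl 2) • xv k (inl 0) +
      B (inl 1) (inl 2) • xv k (inl 1) + B (inl 2) (inl 2) • xv k (inl 2) := by
  have h : ∀ p q, B (inr p) (inl q) = 0 := fun p q => hB _ _ (by revert p q; decide)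
  simp [big_xv, Fintype.sum_sum_type, Fin.sum_univ_three, h, hB (inl 1) (inl 0) (by decide),
    hB (inl 2) (inl 0) (by decide), hB (inl 2) (inl 1) (by decide)]

/-- the highest weight -/
noncomputable def lam (a b c : ℕ) (B : sp6) : ℂ := ((a : ℂ) + b + c) * B.1 (inl 0) (inl 0) +
  ((b : ℂ) + c) * B.1 (inl 1) (inl 1) + c * B.1 (inl 2) (inl 2)

theorem borel_g3 (a b c : ℕ) {B : sp6} (hB : InBorel B.1) :
    r3 B (g3 a b c) = lam a b c B • g3 a b c := by
  have h2 : actL (big3 B.1) m2 = (B.1 (inl 0) (inl 0) + B.1 (inl 1) (inl 1)) • m2 := by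
    simp only [m2, map_sub, actL_mul, borel_xv hB, smul_eq_C_mul, map_add]
    ring
  have h3 : actL (big3 B.1) m3 =
      (B.1 (inl 0) (inl 0) + B.1 (inl 1) (inl 1) + B.1 (inl 2) (inl 2)) • m3 := by
    simp only [m3, map_sub, actL_mul, borel_xv hB, smul_eq_C_mul, map_add]
    ring
  have := actL_mul_eig _ (actL_mul_eig _ (actL_pow_eig _ (borel_xv hB 0).1 a)
    (actL_pow_eig _ h2 b)) (actL_pow_eig _ h3 c)
  rw [r3_apply, g3, this, lam]
  congr 1
  ring

theorem g3_ne (a b c : ℕ) : g3 a b c ≠ 0 := by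
  intro h
  have := congrArg (eval fun u : V3 => if u.2 = inl u.1 then (1 : ℂ) else 0) h
  simp [g3, m2, m3, xv] at this

/-- homogeneous polynomials -/
noncomputable def HN (N : ℕ) : Submodule ℂ P3 := weightedHomogeneousSubmodule ℂ (fun _ => 1) N

theorem mem_HN {N : ℕ} {f : P3} (hf : f ∈ HN N) {α : V3 →₀ ℕ} (hα : coeff α f ≠ 0) :
    ∑ u, α u = N := by
  have := hf hα
  rwa [weight_sum, Finset.sum_congr rfl fun u _ => by rw [smul_eq_mul, mul_one]] at this

instance HN_fd (N : ℕ) : FiniteDimensional ℂ (HN N) :=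
  fd_of_bdd _ N fun _ hf _ hα => (mem_HN hf hα).le

/-- weights of the natural module -/
def wI (i : I) : G3 := Pi.single (plane i) (if i.isLeft then 1 else -1)

noncomputable def PH3 (r : G3) : Submodule ℂ P3 :=
  weightedHomogeneousSubmodule ℂ (fun u : V3 => wI u.2) r

theorem weight_wI (α : V3 →₀ ℕ) (p : Fin 3) : Finsupp.weight (fun u : V3 => wI u.2) α p =
    (α (0, inl p) : ℤ) + α (1, inl p) + α (2, inl p) - α (0, inr p) - α (1, inr p) -
      α (2, inr p) := by
  rw [weight_sum, Fintype.sum_prod_type, Fin.sum_univ_three, Fintype.sum_sum_type,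
    Fintype.sum_sum_type, Fintype.sum_sum_type]
  simp only [wI, plane_inl, plane_inr]
  simp [Finset.sum_apply, Pi.single_apply]
  ring

theorem g3_hom {G : Type} [AddCommMonoid G] (w : I → G) (a b c : ℕ) :
    IsWeightedHomogeneous (fun u : V3 => w u.2) (g3 a b c)
      (a • w (inl 0) + b • (w (inl 0) + w (inl 1)) + c • (w (inl 0) + w (inl 1) + w (inl 2))) := by
  have h : ∀ k i, IsWeightedHomogeneous (fun u : V3 => w u.2) (xv k i) (w i) := fun k i =>
    isWeightedHomogeneous_X _ _ _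
  have h3 : ∀ i j k, w i + w j + w k = w (inl 0) + w (inl 1) + w (inl 2) →
      IsWeightedHomogeneous (fun u : V3 => w u.2) (xv 0 i * xv 1 j * xv 2 k)
        (w (inl 0) + w (inl 1) + w (inl 2)) := fun i j k e => e ▸ ((h _ _).mul (h _ _)).mul (h _ _)
  refine (((h _ _).pow a).mul (IsWeightedHomogeneous.pow ?_ b)).mul
    (IsWeightedHomogeneous.pow ?_ c)
  · exact ((h _ _).mul (h _ _)).sub (add_comm (w (inl 0)) _ ▸ (h _ _).mul (h _ _))
  · exact (((((h3 _ _ _ rfl).sub (h3 _ _ _ (by abel))).sub (h3 _ _ _ (by abel))).add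
      (h3 _ _ _ (by abel))).add (h3 _ _ _ (by abel))).sub (h3 _ _ _ (by abel))

/-- the highest weight as an integer vector -/
def lv (a b c : ℕ) : G3 := ![(a + b + c : ℕ), (b + c : ℕ), c]

theorem g3_PH (a b c : ℕ) : g3 a b c ∈ PH3 (lv a b c) := by
  have := g3_hom wI a b c
  have e : a • wI (inl 0) + b • (wI (inl 0) + wI (inl 1)) +
      c • (wI (inl 0) + wI (inl 1) + wI (inl 2)) = lv a b c := by
    funext p
    fin_cases p <;> simp [wI, lv, plane_inl]
  rw [e] at this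
  exact this

/-- the model of the irreducible module -/
noncomputable def MM (a b c : ℕ) : Submodule ℂ P3 := cyc r3 (Neg Set.univ h0) (g3 a b c)

theorem MM_le (a b c : ℕ) : MM a b c ≤ HN (a + 2 * b + 3 * c) := by
  refine cyc_le (fun A _ f hf => ?_) ?_
  · rw [r3_apply]; exact hom_actL0 (fun _ _ _ => rfl) hf
  · have := g3_hom (fun _ => (1 : ℕ)) a b c
    rw [show a • 1 + b • (1 + 1) + c • (1 + 1 + 1) = a + 2 * b + 3 * c by simp; ring] at this
    exact this

instance MM_fd (a b c : ℕ) : FiniteDimensional ℂ (MM a b c) :=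
  Submodule.finiteDimensional_of_le (MM_le a b c)

theorem g3_dec (a b c : ℕ) (A : sp6) (hA : A ∈ Set.univ) : ∃ z : ℂ,
    ∃ y ∈ Submodule.span ℂ (Neg Set.univ h0), r3 A (g3 a b c) = z • g3 a b c + r3 y (g3 a b c) := by
  obtain ⟨B, -, hB2, hB3⟩ := borel_dec (S := Set.univ) (fun _ _ _ _ => trivial) A hA
  exact ⟨_, A - B, hB3, hdec_of r3 (borel_g3 a b c hB2)⟩

theorem MM_min (a b c : ℕ) : MinInv r3 Set.univ (MM a b c) :=
  haveI : FiniteDimensional ℂ (cyc r3 (Neg Set.univ h0) (g3 a b c)) := MM_fd a b c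
  minInv_cyc (S := Set.univ) (fischer V3) (fun _ _ _ _ => trivial)
    (fun A _ => ⟨adj A, trivial, r3_adj A⟩) trivial (borel_g3 a b c h0_borel) (g3_dec a b c)

theorem MM_inv {a b c : ℕ} (A : sp6) {f : P3} (hf : f ∈ MM a b c) : r3 A f ∈ MM a b c :=
  (MM_min a b c).1 A trivial f hf

theorem diag_act {A : sp6} (hA : ∀ i j, i ≠ j → A.1 i j = 0) {μ : G3} {f : P3} (hf : f ∈ PH3 μ) :
    r3 A f = (∑ p, (μ p : ℂ) * A.1 (inl p) (inl p)) • f := by
  have e : big3 A.1 = Matrix.diagonal fun u : V3 => A.1 u.2 u.2 := by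
    ext ⟨k, i⟩ ⟨l, j⟩
    simp only [big3_apply, Matrix.diagonal_apply, Prod.mk.injEq]
    by_cases h1 : k = l <;> by_cases h2 : i = j <;> simp [h1, h2, hA]
  rw [r3_apply, e]
  apply actL_diag
  intro α hα
  have h5 : ∀ p, (μ p : ℂ) = (α (0, inl p) : ℂ) + α (1, inl p) + α (2, inl p) - α (0, inr p) -
      α (1, inr p) - α (2, inr p) := by
    intro p
    rw [← hf hα, weight_wI]; push_cast; rfl
  simp only [h5, Fintype.sum_prod_type, Fintype.sum_sum_type, Fin.sum_univ_three,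
    ((mem_sp6 A.1).1 A.2).1]
  ring

theorem Rr_act (p : Fin 3) {μ : G3} {f : P3} (hf : f ∈ PH3 μ) :
    r3 (Rr p p) f = (μ p : ℂ) • f := by
  rw [diag_act (fun i j hij => ?_) hf]
  · simp [Rr, Matrix.single_apply]
  · by_contra h
    rcases Rr_ne h with ⟨rfl, rfl⟩ | ⟨rfl, rfl⟩ <;> exact hij rfl

theorem MM_dom {a b c : ℕ} {f : P3} (hf : f ∈ MM a b c) {α : V3 →₀ ℕ} (hα : coeff α f ≠ 0) :
    Dom (Finsupp.weight (fun u : V3 => wI u.2) α) (lv a b c) := by
  have : MM a b c ≤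
      restrictSupport ℂ {α | Dom (Finsupp.weight (fun u : V3 => wI u.2) α) (lv a b c)} := by
    refine cyc_le (fun A hA f hf β hβ => ?_) fun β hβ => ?_
    · obtain ⟨u, v, α, h1, h2, h3⟩ := support_actL (A := big3 A.1) (mem_support_iff.1 hβ)
      have h4 := congrArg (Finsupp.weight fun u : V3 => wI u.2) h3
      simp only [map_add, Finsupp.weight_single, one_smul] at h4
      have h5 : Dom _ _ := hf (mem_support_iff.2 h2)
      have h6 : Dom (wI u.2) (wI v.2) := by
        have : ∀ i j : I, ht i < ht j → Dom (wI i) (wI j) := by unfold Dom; decide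
        exact this _ _ (neg_entry hA (big3_ne h1))
      have e0 := congrFun h4 0
      have e1 := congrFun h4 1
      have e2 := congrFun h4 2
      simp only [Dom, Pi.add_apply, Set.mem_ofPred_eq] at *
      omega
    · rw [Set.mem_ofPred_eq, g3_PH a b c (mem_support_iff.1 hβ)]
      exact ⟨le_rfl, le_rfl, le_rfl⟩
  exact this hf (mem_support_iff.2 hα)

theorem comp_mem {U : Submodule ℂ P3} (hU : ∀ p, ∀ f ∈ U, r3 (Rr p p) f ∈ U) {f : P3} (hf : f ∈ U)
    (r : G3) : weightedHomogeneousComponent (fun u : V3 => wI u.2) r f ∈ U := by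
  classical
  set cp := fun r => weightedHomogeneousComponent (R := ℂ) (fun u : V3 => wI u.2) r with hcp
  have key : ∀ s : Finset G3, ∀ f ∈ U, (∀ r ∉ s, cp r f = 0) → ∀ r, cp r f ∈ U := by
    intro s
    induction s using Finset.induction_on with
    | empty => intro f _ h r; rw [h r (by simp)]; exact U.zero_mem
    | insert t s ht ih =>
      intro f hf h
      have h1 : ∀ r, r ≠ t → cp r f ∈ U := by
        intro r hr
        obtain ⟨p, hp⟩ := Function.ne_iff.1 hr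
        have e : ∀ r, cp r (r3 (Rr p p) f - (t p : ℂ) • f) = ((r p : ℂ) - t p) • cp r f := by
          intro r
          have := comp_comm (w := fun u : V3 => wI u.2) (r3 (Rr p p)) 0 (fun f m hf => by
            rw [Rr_act p hf, add_zero]; exact (PH3 m).smul_mem _ hf) f r
          rw [add_zero, Rr_act p (weightedHomogeneousComponent_mem _ _ _)] at this
          rw [map_sub, map_smul, sub_smul, ← this]
        have h2 := ih _ (U.sub_mem (hU p f hf) (U.smul_mem (t p : ℂ) hf)) (fun r hr => by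
          rw [e]
          by_cases h3 : r = t
          · simp [h3]
          · rw [h r (by simp [h3, hr]), smul_zero]) r
        rw [e] at h2
        exact (U.smul_mem_iff (sub_ne_zero.2 (by exact_mod_cast hp))).1 h2
      intro r
      by_cases hr : r = t
      · have e : cp t f = f - ∑ r ∈ s, cp r f := by
          ext α
          have h4 := fun h5 => congrArg (coeff α) (h (Finsupp.weight (fun u : V3 => wI u.2) α) h5)
          simp only [hcp, coeff_sub, coeff_sum, coeff_weightedHomogeneousComponent,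
            Finset.sum_ite_eq, if_true, coeff_zero, Finset.mem_insert] at h4 ⊢
          split_ifs with h6 h7 h7
          · exact absurd (h6 ▸ h7) ht
          · simp
          · simp
          · simp [h4 (by simp [h6, h7])]
        rw [hr, e]
        exact U.sub_mem hf (U.sum_mem fun r hr => h1 r fun h => ht (h ▸ hr))
      · exact h1 r hr
  refine key (f.support.image (Finsupp.weight fun u : V3 => wI u.2)) f hf (fun r hr => ?_) r
  ext α
  simp only [hcp, coeff_weightedHomogeneousComponent, coeff_zero, ite_eq_right_iff]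
  intro h
  by_contra h1
  exact hr (Finset.mem_image.2 ⟨α, mem_support_iff.2 h1, h⟩)

end Pool.Agent.Work.MP_cdf40b_al.Hedge
end

-- merged part: Pool.Agent.Work.MP_cdf40b_al.Hedge.Roots
section
namespace Pool.Agent.Work.MP_cdf40b_al.Hedge

open MvPolynomial Sum
open Module (End finrank)
open scoped ComplexConjugate Matrix Kronecker

attribute [local instance 100] LieRing.ofAssociativeRing

/-- `E` is a root vector with root `α` and coroot `η` -/
structure Root (E : sp6) (α η : G3) : Prop where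
  wt : ∀ i j, E.1 i j ≠ 0 → wI i = α + wI j
  br : ∀ μ, ∀ f ∈ PH3 μ, r3 ⁅E, adj E⁆ f = ((η ⬝ᵥ μ : ℤ) : ℂ) • f
  two : η ⬝ᵥ α = 2

variable {E : sp6} {α η : G3}

theorem Root.neg (h : Root E α η) : Root (adj E) (-α) (-η) where
  wt i j hij := by
    rw [h.wt j i fun e => hij (by rw [adj_apply, e, star_zero])]; abel
  br μ f hf := by
    rw [adj_adj, ← lie_skew, map_neg, LinearMap.neg_apply, h.br μ f hf]; simp
  two := by simp [h.two]

theorem Root.up (h : Root E α η) {μ : G3} {f : P3} (hf : f ∈ PH3 μ) : r3 E f ∈ PH3 (μ + α) := by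
  rw [r3_apply]
  exact hom_actL (fun u v e => h.wt _ _ (big3_ne e)) hf

theorem Root.pow (h : Root E α η) {μ : G3} {f : P3} (hf : f ∈ PH3 μ) (n : ℕ) :
    (r3 E ^ n) f ∈ PH3 (μ + n • α) := by
  induction n with
  | zero => simpa using hf
  | succ n ih => rw [pow_succ', End.mul_apply, succ_nsmul, ← add_assoc]; exact h.up ih

theorem Root.unit (h : Root E α η) {μ : G3} {g : P3} (hg : g ∈ PH3 μ) (hn : 0 < η ⬝ᵥ μ)
    (h0 : r3 (adj E) g = 0) : g = 0 := by
  have h2 := r3_lie E (adj E) g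
  rw [h0, map_zero, h.br μ g hg] at h2
  have h3 := congrArg (ip g) h2
  rw [ip_zero_right, ip_add_right, r3_adj, adj_adj, ip_smul_right, ip_self, ip_self] at h3
  have p1 : 0 ≤ ∑ α ∈ (r3 E g).support, (fac α : ℝ) * Complex.normSq (coeff α (r3 E g)) :=
    Finset.sum_nonneg fun α _ => mul_nonneg (Nat.cast_nonneg _) (Complex.normSq_nonneg _)
  have p2 : 0 ≤ ∑ α ∈ g.support, (fac α : ℝ) * Complex.normSq (coeff α g) :=
    Finset.sum_nonneg fun α _ => mul_nonneg (Nat.cast_nonneg _) (Complex.normSq_nonneg _)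
  apply ip_definite
  rw [ip_self]
  generalize ∑ α ∈ (r3 E g).support, (fac α : ℝ) * Complex.normSq (coeff α (r3 E g)) = A at *
  generalize ∑ α ∈ g.support, (fac α : ℝ) * Complex.normSq (coeff α g) = B at *
  have h4 : (0 : ℝ) = A + ((η ⬝ᵥ μ : ℤ) : ℝ) * B := by exact_mod_cast h3
  have h5 : (0 : ℝ) < ((η ⬝ᵥ μ : ℤ) : ℝ) := by exact_mod_cast hn
  have h6 : B = 0 := by nlinarith
  simp [h6]

theorem Root.nil (h : Root E α η) {μ : G3} {w : P3} (hw : w ∈ PH3 μ) {m : ℕ} (hm : η ⬝ᵥ μ = -m)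
    (h0 : r3 (adj E) w = 0) : (r3 E ^ (m + 1)) w = 0 := by
  have e : ∀ n : ℕ, η ⬝ᵥ (μ + n • α) = 2 * n - m := fun n => by
    rw [dotProduct_add, dotProduct_smul, h.two, hm]; simp; ring
  have st : ∀ j : ℕ, r3 (adj E) ((r3 E ^ (j + 1)) w) =
      r3 E (r3 (adj E) ((r3 E ^ j) w)) - (2 * j - m : ℂ) • (r3 E ^ j) w := fun j => by
    rw [r3_lie E, h.br _ _ (h.pow hw j), e, pow_succ', End.mul_apply]; simp
  have key : ∀ j : ℕ, r3 (adj E) ((r3 E ^ (j + 1)) w) = ((j + 1) * (m - j) : ℂ) • (r3 E ^ j) w := by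
    intro j
    induction j with
    | zero => rw [st]; simp [h0]
    | succ j ih =>
      rw [st, ih, map_smul, ← End.mul_apply, ← pow_succ', ← sub_smul]
      congr 1
      push_cast
      ring
  refine h.unit (h.pow hw (m + 1)) (by rw [e]; omega) ?_
  rw [key]; simp

theorem Root.inj (h : Root E α η) {μ : G3} {v : P3} (hv : v ∈ PH3 μ) {k : ℕ} (hk : η ⬝ᵥ μ = k)
    (h0 : (r3 (adj E) ^ k) v = 0) : v = 0 := by
  have ad : ∀ (i : ℕ) (w : P3), ip w ((r3 (adj E) ^ i) v) = ip ((r3 E ^ i) w) v := by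
    intro i
    induction i with
    | zero => simp
    | succ i ih => intro w; rw [pow_succ', End.mul_apply, r3_adj, adj_adj, ih, pow_succ]; rfl
  have key : ∀ i ≤ k, (r3 (adj E) ^ i) v = 0 → v = 0 := by
    intro i
    induction i with
    | zero => simp
    | succ i ih =>
      intro hi h1
      apply ih (by omega)
      rw [pow_succ', End.mul_apply] at h1
      have hw := h.neg.pow hv i
      have e : η ⬝ᵥ (μ + i • -α) = k - 2 * i := by
        rw [dotProduct_add, dotProduct_smul, dotProduct_neg, h.two, hk]; simp; ring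
      by_cases h2 : 2 * i < k
      · exact h.unit hw (by omega) h1
      · have h3 := h.nil hw (m := 2 * i - k) (by omega) h1
        apply ip_definite
        rw [ad, show r3 E ^ i = r3 E ^ (i - (2 * i - k + 1)) * r3 E ^ (2 * i - k + 1) by
          rw [← pow_add]; congr 1; omega, End.mul_apply, h3, map_zero, ip_zero_left]
  exact key k le_rfl h0

/-- weight spaces of the model -/
noncomputable def Mw (a b c : ℕ) (μ : G3) : Submodule ℂ P3 := MM a b c ⊓ PH3 μ

instance Mw_fd (a b c : ℕ) (μ : G3) : FiniteDimensional ℂ (Mw a b c μ) :=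
  Submodule.finiteDimensional_of_le (S₂ := MM a b c) inf_le_left

variable {a b c : ℕ}

theorem Root.Mw_up (h : Root E α η) {μ : G3} {f : P3} (hf : f ∈ Mw a b c μ) :
    r3 E f ∈ Mw a b c (μ + α) := ⟨MM_inv E hf.1, h.up hf.2⟩

theorem Root.Mw_down (h : Root E α η) {μ : G3} {f : P3} (hf : f ∈ Mw a b c (μ + α)) :
    r3 (adj E) f ∈ Mw a b c μ := by
  have := h.neg.Mw_up hf
  rwa [add_neg_cancel_right] at this

theorem Root.le (h : Root E α η) {μ : G3} {k : ℕ} (hk : η ⬝ᵥ μ = k) :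
    finrank ℂ (Mw a b c μ) ≤ finrank ℂ (Mw a b c (μ + k • -α)) := by
  have hm : ∀ n : ℕ, ∀ f ∈ Mw a b c μ, (r3 (adj E) ^ n) f ∈ Mw a b c (μ + n • -α) := by
    intro n f hf
    induction n with
    | zero => simpa using hf
    | succ n ih => rw [pow_succ', End.mul_apply, succ_nsmul, ← add_assoc]; exact h.neg.Mw_up ih
  refine LinearMap.finrank_le_finrank_of_injective (f := (r3 (adj E) ^ k).restrict (hm k)) ?_
  rw [injective_iff_map_eq_zero]
  intro v hv
  exact Subtype.ext (h.inj v.2.2 hk (congrArg Subtype.val hv))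

theorem Root.refl (h : Root E α η) (μ : G3) :
    finrank ℂ (Mw a b c (μ - (η ⬝ᵥ μ) • α)) = finrank ℂ (Mw a b c μ) := by
  have key : ∀ {E : sp6} {α η : G3}, Root E α η → ∀ k : ℕ, η ⬝ᵥ μ = k →
      finrank ℂ (Mw a b c (μ - (η ⬝ᵥ μ) • α)) = finrank ℂ (Mw a b c μ) := by
    intro E α η h k hk
    have e : μ - (η ⬝ᵥ μ) • α = μ + k • -α := by rw [hk]; simp [sub_eq_add_neg]
    rw [e]
    refine le_antisymm ?_ (h.le hk)
    have := h.neg.le (a := a) (b := b) (c := c) (μ := μ + k • -α) (k := k) (by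
      rw [dotProduct_add, dotProduct_smul, h.neg.two, neg_dotProduct, hk]; simp; ring)
    rwa [show μ + k • -α + k • - -α = μ by simp] at this
  rcases le_total 0 (η ⬝ᵥ μ) with h1 | h1
  · exact key h _ (Int.toNat_of_nonneg h1).symm
  · have := key h.neg (-(η ⬝ᵥ μ)).toNat (by rw [neg_dotProduct]; omega)
    rwa [show μ - (-η ⬝ᵥ μ) • -α = μ - (η ⬝ᵥ μ) • α by simp] at this

theorem adj_Rr (p q : Fin 3) : adj (Rr p q) = Rr q p := by
  apply Subtype.ext
  simp [adj, Rr, Matrix.conjTranspose_single]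

theorem root_R {p q : Fin 3} (h : p ≠ q) :
    Root (Rr p q) (Pi.single p 1 - Pi.single q 1) (Pi.single p 1 - Pi.single q 1) where
  wt i j hij := by
    rcases Rr_ne hij with ⟨rfl, rfl⟩ | ⟨rfl, rfl⟩ <;> simp [wI, plane_inl, plane_inr, Pi.single_neg]
    abel
  br μ f hf := by
    have : ⁅Rr p q, adj (Rr p q)⁆ = Rr p p - Rr q q := by
      rw [adj_Rr]
      apply Subtype.ext
      simp [Rr, LieRing.of_associative_ring_bracket, mul_sub, sub_mul]
      abel
    rw [this, map_sub, LinearMap.sub_apply, Rr_act p hf, Rr_act q hf]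
    simp [sub_smul]
  two := by simp [h, h.symm]

theorem root_S {p q : Fin 3} (h : p ≠ q) :
    Root (Sr p q) (Pi.single p 1 + Pi.single q 1) (Pi.single p 1 + Pi.single q 1) where
  wt i j hij := by
    rcases Sr_ne hij with ⟨rfl, rfl⟩ | ⟨rfl, rfl⟩ <;> simp [wI, plane_inl, plane_inr, Pi.single_neg]
  br μ f hf := by
    have : ⁅Sr p q, adj (Sr p q)⁆ = Rr p p + Rr q q := by
      apply Subtype.ext
      simp [adj, Sr, Rr, LieRing.of_associative_ring_bracket, mul_add, add_mul, h, h.symm,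
        Matrix.conjTranspose_single]
      abel
    rw [this, map_add, LinearMap.add_apply, Rr_act p hf, Rr_act q hf]
    simp [add_smul]
  two := by simp [h, h.symm]

theorem root_L (p : Fin 3) : Root (Lr p) (Pi.single p 2) (Pi.single p 1) where
  wt i j hij := by
    obtain ⟨rfl, rfl⟩ := Lr_ne hij
    simp [wI, plane_inl, plane_inr, ← Pi.single_add]
  br μ f hf := by
    have : ⁅Lr p, adj (Lr p)⁆ = Rr p p := by
      apply Subtype.ext
      simp [adj, Lr, Rr, LieRing.of_associative_ring_bracket, Matrix.conjTranspose_single]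
    rw [this, Rr_act p hf]
    simp
  two := by simp

theorem L_step (p : Fin 3) (K : G3 → Submodule ℂ P3) (hK : ∀ μ, K μ ≤ Mw a b c μ) {μ : G3}
    (hE : ∀ f ∈ K μ, r3 (Lr p) f ∈ K (μ + Pi.single p 2))
    (hF : ∀ f ∈ K (μ + Pi.single p 2), r3 (adj (Lr p)) f ∈ K μ) (h : 0 ≤ μ p) :
    finrank ℂ (K μ ⊓ LinearMap.ker (r3 (Lr p)) : Submodule ℂ P3) +
      finrank ℂ (K (μ + Pi.single p 2)) = finrank ℂ (K μ) := by
  have := Submodule.finiteDimensional_of_le (hK μ)
  refine finrank_adj (fischer V3) _ _ (r3 (Lr p)) (r3 (adj (Lr p))) (fun f g => ?_) hE hF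
    fun g hg => (root_L p).unit (hK _ hg).2 (by simp; omega)
  rw [fischer_inner, fischer_inner, r3_adj, adj_adj]

theorem L_comm {p q : Fin 3} {f : P3} (hf : r3 (Lr q) f = 0) : r3 (Lr q) (r3 (Lr p) f) = 0 := by
  have : ⁅Lr q, Lr p⁆ = 0 := by
    apply Subtype.ext
    simp [Lr, LieRing.of_associative_ring_bracket]
  rw [r3_lie, this, hf]; simp

theorem L_comm' {p q : Fin 3} (h : p ≠ q) {f : P3} (hf : r3 (Lr q) f = 0) :
    r3 (Lr q) (r3 (adj (Lr p)) f) = 0 := by
  have : ⁅Lr q, adj (Lr p)⁆ = 0 := by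
    apply Subtype.ext
    simp [adj, Lr, LieRing.of_associative_ring_bracket, Matrix.conjTranspose_single, h, h.symm]
  rw [r3_lie, this, hf]; simp

/-- highest weight vectors for `sl₂³` -/
noncomputable def W3 (a b c : ℕ) (μ : G3) : Submodule ℂ P3 :=
  Mw a b c μ ⊓ LinearMap.ker (r3 (Lr 0)) ⊓ LinearMap.ker (r3 (Lr 1)) ⊓ LinearMap.ker (r3 (Lr 2))

theorem rank_W3 (d : G3 → ℂ) (hd : ∀ μ, d μ = finrank ℂ (Mw a b c μ)) (i j k : ℕ) :
    (finrank ℂ (W3 a b c ![i, j, k]) : ℂ) =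
    d ![i, j, k] - d ![i + 2, j, k] - (d ![i, j + 2, k] - d ![i + 2, j + 2, k]) -
      (d ![i, j, k + 2] - d ![i + 2, j, k + 2] - (d ![i, j + 2, k + 2] - d ![i + 2, j + 2, k + 2])) := by
  have v0 : ∀ i j k : ℤ, ![i, j, k] + Pi.single 0 2 = ![i + 2, j, k] := fun i j k => by
    funext p; fin_cases p <;> simp
  have v1 : ∀ i j k : ℤ, ![i, j, k] + Pi.single 1 2 = ![i, j + 2, k] := fun i j k => by
    funext p; fin_cases p <;> simp
  have v2 : ∀ i j k : ℤ, ![i, j, k] + Pi.single 2 2 = ![i, j, k + 2] := fun i j k => by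
    funext p; fin_cases p <;> simp
  have s0 : ∀ j k : ℤ, (finrank ℂ (Mw a b c ![i, j, k] ⊓ LinearMap.ker (r3 (Lr 0)) :
      Submodule ℂ P3) : ℂ) = d ![i, j, k] - d ![i + 2, j, k] := by
    intro j k
    rw [hd, hd, ← v0, ← L_step 0 (Mw a b c) (fun _ => le_rfl) (fun f hf => (root_L 0).Mw_up hf)
      (fun f hf => (root_L 0).Mw_down hf) (by simp)]
    simp
  have s1 : ∀ k : ℤ, (finrank ℂ (Mw a b c ![i, j, k] ⊓ LinearMap.ker (r3 (Lr 0)) ⊓
      LinearMap.ker (r3 (Lr 1)) : Submodule ℂ P3) : ℂ) =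
      d ![i, j, k] - d ![i + 2, j, k] - (d ![i, j + 2, k] - d ![i + 2, j + 2, k]) := by
    intro k
    rw [← s0, ← s0, ← v1, ← L_step 1 (fun μ => Mw a b c μ ⊓ LinearMap.ker (r3 (Lr 0)))
      (fun _ => inf_le_left) (fun f hf => ⟨(root_L 1).Mw_up hf.1, L_comm hf.2⟩)
      (fun f hf => ⟨(root_L 1).Mw_down hf.1, L_comm' (by decide) hf.2⟩) (by simp)]
    simp
  rw [← s1, ← s1, ← v2, ← L_step 2 (fun μ => Mw a b c μ ⊓ LinearMap.ker (r3 (Lr 0)) ⊓
    LinearMap.ker (r3 (Lr 1))) (fun _ => inf_le_left.trans inf_le_left)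
    (fun f hf => ⟨⟨(root_L 2).Mw_up hf.1.1, L_comm hf.1.2⟩, L_comm hf.2⟩)
    (fun f hf => ⟨⟨(root_L 2).Mw_down hf.1.1, L_comm' (by decide) hf.1.2⟩,
      L_comm' (by decide) hf.2⟩) (by simp)]
  rw [Nat.cast_add, add_sub_cancel_right]
  rfl

end Pool.Agent.Work.MP_cdf40b_al.Hedge
end
end

-- merged part: Pool.Agent.Work.MP_cdf40b_al.Hedge.Cas
section
namespace Pool.Agent.Work.MP_cdf40b_al.Hedge

open MvPolynomial Sum
open Module (End finrank)
open scoped ComplexConjugate Matrix Kronecker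

attribute [local instance 100] LieRing.ofAssociativeRing

/-- twice the projection `gl₆ → sp₆` -/
noncomputable def pi6 : Matrix I I ℂ →ₗ[ℂ] sp6 where
  toFun A := ⟨A + Matrix.J (Fin 3) ℂ * Aᵀ * Matrix.J (Fin 3) ℂ, by
    rw [sp6, LieAlgebra.Symplectic.sp, mem_skewAdjointMatricesLieSubalgebra,
      mem_skewAdjointMatricesSubmodule, Matrix.IsSkewAdjoint, Matrix.IsAdjointPair]
    have h := Matrix.J_squared (Fin 3) ℂ
    simp only [Matrix.transpose_add, Matrix.transpose_mul, Matrix.J_transpose,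
      Matrix.transpose_transpose]
    generalize Matrix.J (Fin 3) ℂ = J at *
    linear_combination (norm := noncomm_ring) J * A * h + h * Aᵀ * J⟩
  map_add' A B := by apply Subtype.ext; simp [mul_add, add_mul]; abel
  map_smul' c A := by apply Subtype.ext; simp

theorem pi6_val (A : Matrix I I ℂ) :
    (pi6 A).1 = A + Matrix.J (Fin 3) ℂ * Aᵀ * Matrix.J (Fin 3) ℂ := rfl

theorem pi6_lie (Y : sp6) (A : Matrix I I ℂ) : ⁅Y, pi6 A⁆ = pi6 (Y.1 * A) - pi6 (A * Y.1) := by
  have hY : Y.1ᵀ * Matrix.J (Fin 3) ℂ = Matrix.J (Fin 3) ℂ * -Y.1 :=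
    (mem_skewAdjointMatricesSubmodule _ _).1 ((mem_skewAdjointMatricesLieSubalgebra _ _).1 Y.2)
  have h := Matrix.J_squared (Fin 3) ℂ
  apply Subtype.ext
  simp only [LieSubalgebra.coe_bracket, LieRing.of_associative_ring_bracket, pi6_val,
    AddSubgroupClass.coe_sub, Matrix.transpose_mul]
  generalize Matrix.J (Fin 3) ℂ = J at *
  have h2 : J * Y.1ᵀ = -(Y.1 * J) := by
    linear_combination (norm := noncomm_ring) J * Y.1ᵀ * h - J * hY * J + h * Y.1 * J
  linear_combination (norm := noncomm_ring) h2 * Aᵀ * J - J * Aᵀ * hY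

theorem pi6_single (p q : Fin 3) :
    pi6 (Matrix.single (inl p) (inl q) 1) = Rr p q ∧
    pi6 (Matrix.single (inr p) (inr q) 1) = -Rr q p ∧
    pi6 (Matrix.single (inl p) (inr q) 1) = Sr p q ∧
    pi6 (Matrix.single (inr p) (inl q) 1) = adj (Sr p q) := by
  refine ⟨?_, ?_, ?_, ?_⟩ <;> apply Subtype.ext <;> ext (i | i) (j | j) <;>
    simp [pi6_val, Rr, Sr, adj, Matrix.mul_apply, Matrix.J, Fintype.sum_sum_type, Matrix.one_apply,
      Matrix.single_apply, and_comm, add_comm, ite_and, eq_comm] <;> split_ifs <;> simp_all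

/-- the Casimir operator -/
noncomputable def Cas : End ℂ P3 :=
  ∑ i, ∑ j, r3 (pi6 (Matrix.single i j 1)) * r3 (pi6 (Matrix.single j i 1))

theorem Cas_comm (Y : sp6) : r3 Y * Cas = Cas * r3 Y := by
  have h1 : ∀ i j, Y.1 * Matrix.single i j 1 = ∑ k, Y.1 k i • Matrix.single k j (1 : ℂ) := by
    intro i j; ext u v
    simp [Matrix.mul_apply, Matrix.single_apply, Matrix.sum_apply, ite_and]
  have h2 : ∀ i j, Matrix.single i j 1 * Y.1 = ∑ k, Y.1 j k • Matrix.single i k (1 : ℂ) := by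
    intro i j; ext u v
    simp [Matrix.mul_apply, Matrix.single_apply, Matrix.sum_apply, ite_and]
  have h3 : ∀ A B : sp6, r3 Y * (r3 A * r3 B) - r3 A * r3 B * r3 Y =
      r3 ⁅Y, A⁆ * r3 B + r3 A * r3 ⁅Y, B⁆ := by
    intro A B
    simp only [LieHom.map_lie, LieRing.of_associative_ring_bracket, mul_sub, sub_mul, mul_assoc]
    abel
  set e := fun i j => r3 (pi6 (Matrix.single i j 1)) with he
  have a1 : ∑ i, ∑ j, ∑ k, Y.1 k i • (e k j * e j i) = ∑ i, ∑ j, ∑ k, Y.1 i k • (e i j * e j k) := by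
    rw [Finset.sum_comm]
    conv_rhs => rw [Finset.sum_comm]
    exact Finset.sum_congr rfl fun j _ => Finset.sum_comm
  have a2 : ∑ i, ∑ j, ∑ k, Y.1 j k • (e i k * e j i) = ∑ i, ∑ j, ∑ k, Y.1 k j • (e i j * e k i) :=
    Finset.sum_congr rfl fun j _ => Finset.sum_comm
  rw [← sub_eq_zero, Cas]
  simp only [Finset.mul_sum, Finset.sum_mul, ← Finset.sum_sub_distrib, h3, pi6_lie, h1, h2,
    map_sub, map_sum, map_smul, sub_mul, mul_sub, smul_mul_assoc, mul_smul_comm]
  simp only [Finset.sum_add_distrib, Finset.sum_sub_distrib]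
  simp only [he] at a1 a2
  rw [a1, a2]; abel

/-- lowering after raising -/
noncomputable def FE (E : sp6) : End ℂ P3 := r3 (adj E) * r3 E

theorem Root.EF {E : sp6} {α η : G3} (h : Root E α η) {μ : G3} {f : P3} (hf : f ∈ PH3 μ) :
    r3 E (r3 (adj E) f) = FE E f + ((η ⬝ᵥ μ : ℤ) : ℂ) • f := by
  rw [r3_lie, h.br μ f hf]; rfl

theorem Cas_apply {μ : G3} {f : P3} (hf : f ∈ PH3 μ) : Cas f = (2 : ℂ) • ((cas μ : ℂ) • f +
    (((2 : ℂ) • (FE (Rr 0 1) + FE (Rr 0 2) + FE (Rr 1 2) + FE (Sr 0 1) + FE (Sr 0 2) +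
      FE (Sr 1 2)) + (4 : ℂ) • (FE (Lr 0) + FE (Lr 1) + FE (Lr 2))) f)) := by
  have s1 : ∀ p q, Sr p q = Sr q p := fun p q => Subtype.ext (add_comm _ _)
  have s2 : ∀ p, Sr p p = (2 : ℂ) • Lr p := fun p => Subtype.ext (two_smul ℂ _).symm
  have s3 : ∀ p, adj ((2 : ℂ) • Lr p) = (2 : ℂ) • adj (Lr p) := fun p => by
    apply Subtype.ext; simp [adj]
  have r01 := (root_R (p := 0) (q := 1) (by decide)).EF hf
  have r02 := (root_R (p := 0) (q := 2) (by decide)).EF hf
  have r12 := (root_R (p := 1) (q := 2) (by decide)).EF hf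
  have t01 := (root_S (p := 0) (q := 1) (by decide)).EF hf
  have t02 := (root_S (p := 0) (q := 2) (by decide)).EF hf
  have t12 := (root_S (p := 1) (q := 2) (by decide)).EF hf
  simp only [FE, End.mul_apply, adj_Rr] at r01 r02 r12 t01 t02 t12
  simp only [Cas, Fintype.sum_sum_type, Fin.sum_univ_three, pi6_single, LinearMap.add_apply,
    End.mul_apply, map_neg, LinearMap.neg_apply, neg_neg, s1 1 0, s1 2 0, s1 2 1, s2, s3, map_smul,
    LinearMap.smul_apply, Rr_act _ hf, r01, r02, r12, t01, t02, t12, (root_L _).EF hf, FE, adj_Rr,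
    cas, sub_dotProduct, add_dotProduct, single_dotProduct]
  push_cast
  module

theorem Cas_MM {a b c : ℕ} {f : P3} (hf : f ∈ MM a b c) :
    Cas f = (2 : ℂ) • (cas (lv a b c) : ℂ) • f := by
  have : MM a b c ≤ LinearMap.ker (Cas - (2 : ℂ) • (cas (lv a b c) : ℂ) • 1) := by
    refine cyc_le (fun A _ f hf => ?_) ?_
    · simp only [LinearMap.mem_ker, LinearMap.sub_apply, LinearMap.smul_apply, End.one_apply,
        sub_eq_zero] at hf ⊢
      rw [← End.mul_apply, ← Cas_comm, End.mul_apply, hf, map_smul, map_smul]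
    · have h : ∀ B, Strict B → FE B (g3 a b c) = 0 := fun B hB => by
        rw [FE, End.mul_apply, borel_g3 a b c (strict_borel hB).1]
        simp [lam, (strict_borel hB).2]
      simp [Cas_apply (g3_PH a b c), h, strict_Lr, strict_Sr, strict_Rr]
  simpa [sub_eq_zero] using this hf

/-- trace of an operator compressed to a subspace -/
noncomputable def trc (U : Submodule ℂ P3) : End ℂ P3 →ₗ[ℂ] ℂ :=
  LinearMap.trace ℂ U ∘ₗ LinearMap.lcomp ℂ U U.subtype ∘ₗ
    LinearMap.llcomp ℂ P3 P3 U U.subtype.leftInverse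

theorem trc_apply (U : Submodule ℂ P3) (G : End ℂ P3) :
    trc U G = LinearMap.trace ℂ U (U.subtype.leftInverse ∘ₗ G ∘ₗ U.subtype) := rfl

theorem trc_congr {U : Submodule ℂ P3} {G G' : End ℂ P3} (h : ∀ u ∈ U, G u = G' u) :
    trc U G = trc U G' := by
  rw [trc_apply, trc_apply]
  congr 2
  ext1 u
  exact h u u.2

theorem trc_one (U : Submodule ℂ P3) [FiniteDimensional ℂ U] : trc U 1 = finrank ℂ U := by
  rw [trc_apply, ← LinearMap.trace_id]
  congr 1
  ext1 u
  exact LinearMap.leftInverse_apply_of_inj U.ker_subtype u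

theorem trc_comm {U U' : Submodule ℂ P3} [FiniteDimensional ℂ U] [FiniteDimensional ℂ U']
    {S T : End ℂ P3} (hS : ∀ u ∈ U, S u ∈ U') (hT : ∀ u ∈ U', T u ∈ U) :
    trc U (T * S) = trc U' (S * T) := by
  have key : ∀ {U U' : Submodule ℂ P3} {S T : End ℂ P3} (hS : ∀ u ∈ U, S u ∈ U')
      (hT : ∀ u ∈ U', T u ∈ U),
      trc U (T * S) = LinearMap.trace ℂ U (T.restrict hT ∘ₗ S.restrict hS) := by
    intro U U' S T hS hT
    rw [trc_apply]
    congr 1
    ext1 u
    exact LinearMap.leftInverse_apply_of_inj U.ker_subtype ⟨_, hT _ (hS _ u.2)⟩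
  rw [key hS hT, key hT hS, LinearMap.trace_comp_comm']

variable {a b c : ℕ}

theorem Root.rel {E : sp6} {x y z x' y' z' : ℤ} (h : Root E ![x, y, z] ![x', y', z']) :
    RootRel (fun μ => finrank ℂ (Mw a b c μ)) (fun μ => trc (Mw a b c μ) (FE E))
      x y z x' y' z' := by
  intro μ
  dsimp only
  rw [FE, trc_comm (fun _ hf => h.Mw_up hf) (fun _ hf => h.Mw_down hf),
    trc_congr (U := Mw a b c _) (G := r3 E * r3 (adj E))
      (G' := FE E + ((![x', y', z'] ⬝ᵥ (μ + ![x, y, z]) : ℤ) : ℂ) • 1) fun u hu => h.EF hu.2, map_add, map_smul, trc_one, FE, add_sub_cancel_left, smul_eq_mul]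
  simp [dotProduct, Fin.sum_univ_three]

theorem trc_Cas (μ : G3) : (cas (lv a b c) : ℂ) * finrank ℂ (Mw a b c μ) =
    cas μ * finrank ℂ (Mw a b c μ) +
    (2 * (trc (Mw a b c μ) (FE (Rr 0 1)) + trc (Mw a b c μ) (FE (Rr 0 2)) +
      trc (Mw a b c μ) (FE (Rr 1 2)) + trc (Mw a b c μ) (FE (Sr 0 1)) +
      trc (Mw a b c μ) (FE (Sr 0 2)) + trc (Mw a b c μ) (FE (Sr 1 2))) +
    4 * (trc (Mw a b c μ) (FE (Lr 0)) + trc (Mw a b c μ) (FE (Lr 1)) +
      trc (Mw a b c μ) (FE (Lr 2)))) := by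
  have := trc_congr (U := Mw a b c μ) (G := (cas (lv a b c) : ℂ) • 1) (G' := (cas μ : ℂ) • 1 +
    ((2 : ℂ) • (FE (Rr 0 1) + FE (Rr 0 2) + FE (Rr 1 2) + FE (Sr 0 1) + FE (Sr 0 2) +
      FE (Sr 1 2)) + (4 : ℂ) • (FE (Lr 0) + FE (Lr 1) + FE (Lr 2)))) fun u hu =>
    smul_right_injective P3 (two_ne_zero (α := ℂ)) ((Cas_MM hu.1).symm.trans (Cas_apply hu.2))
  simpa only [map_add, map_smul, trc_one, smul_eq_mul] using this

end Pool.Agent.Work.MP_cdf40b_al.Hedge
end

-- merged part: Pool.Agent.Work.MP_cdf40b_al.Hedge.Main3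
section
namespace Pool.Agent.Work.MP_cdf40b_al.Hedge

open MvPolynomial Sum DirectSum
open Module (End finrank)

attribute [local instance 100] LieRing.ofAssociativeRing

variable {a b c : ℕ}

theorem Mw_bot {μ : G3} {p : Fin 3}
    (h : μ p ∉ Finset.Icc (-(a + 2 * b + 3 * c : ℤ)) (a + 2 * b + 3 * c)) : Mw a b c μ = ⊥ := by
  rw [eq_bot_iff]
  intro f hf
  by_contra h0
  obtain ⟨α, hα⟩ := exists_coeff_ne_zero h0
  have h1 := mem_HN (MM_le a b c hf.1) hα
  have h2 := weight_wI α p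
  rw [hf.2 hα] at h2
  simp only [Fintype.sum_prod_type, Fintype.sum_sum_type, Fin.sum_univ_three] at h1
  apply h
  rw [Finset.mem_Icc, h2]
  fin_cases p <;> simp only [Fin.zero_eta, Fin.mk_one, Fin.reduceFinMk] <;> omega

/-- generating function of the traces of an operator on the weight spaces -/
noncomputable def gen (a b c : ℕ) (G : End ℂ P3) : A3 :=
  .ofCoeff (Finsupp.onFinset
    (Fintype.piFinset fun _ => Finset.Icc (-(a + 2 * b + 3 * c : ℤ)) (a + 2 * b + 3 * c))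
    (fun μ => trc (Mw a b c μ) G) fun μ h => Fintype.mem_piFinset.2 fun p => by
      by_contra hp
      apply h
      rw [trc_congr (G' := 0) fun u hu => by
        rw [Mw_bot hp, Submodule.mem_bot] at hu
        simp [hu], map_zero])

theorem co_gen (G : End ℂ P3) : ⇑(gen a b c G).coeff = fun μ => trc (Mw a b c μ) G := rfl

theorem co_ch : ⇑(gen a b c 1).coeff = fun μ => (finrank ℂ (Mw a b c μ) : ℂ) :=
  funext fun _ => trc_one _

theorem top_ch : Top (gen a b c 1) (lv a b c) := by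
  refine ⟨fun μ h => ?_, ?_⟩
  · rw [co_ch] at h
    have h1 : Mw a b c μ ≠ ⊥ := fun e => h (by simp [e])
    obtain ⟨f, hf, h0⟩ := Submodule.exists_mem_ne_zero_of_ne_bot h1
    obtain ⟨α, hα⟩ := exists_coeff_ne_zero h0
    rw [← hf.2 hα]
    exact MM_dom hf.1 hα
  · have : Mw a b c (lv a b c) = Submodule.span ℂ {g3 a b c} := by
      refine le_antisymm (fun f hf => ?_) ?_
      · obtain ⟨z, hz⟩ := cyc_top (borel_g3 a b c h0_borel) hf.1 (by
          rw [diag_act (fun i j h => Matrix.diagonal_apply_ne _ h) hf.2]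
          simp [lam, lv, Fin.sum_univ_three])
        exact Submodule.mem_span_singleton.2 ⟨z, hz.symm⟩
      · rw [Submodule.span_singleton_le_iff_mem]
        exact ⟨mem_cyc_self _ _ _, g3_PH a b c⟩
    rw [co_ch]
    dsimp only
    rw [this, finrank_span_singleton (g3_ne a b c), Nat.cast_one]

theorem Root.sym {E : sp6} {α η : G3} (h : Root E α η) {f : G3 → G3} (h1 h2)
    (e : ∀ μ, f μ = μ - (η ⬝ᵥ μ) • α) : rf f h1 h2 (gen a b c 1) = gen a b c 1 := by
  ext μ
  simp only [co_rf, co_ch, e, h.refl]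

theorem Root.rel' {E : sp6} {α η : G3} (h : Root E α η) {x y z x' y' z' : ℤ}
    (e : α = ![x, y, z] ∧ η = ![x', y', z']) :
    RootRel (gen a b c 1).coeff (gen a b c (FE E)).coeff x y z x' y' z' := by
  rw [co_ch, co_gen]
  exact Root.rel (e.1 ▸ e.2 ▸ h)

theorem finrank_W3 (x : Fin 3 → ℕ) : finrank ℂ (W3 a b c fun p => x p) = mu3 a b c x := by
  have hL := freud (κ := cas (lv a b c))
    ((root_R (p := 0) (q := 1) (by decide)).rel' (by decide))
    ((root_R (p := 0) (q := 2) (by decide)).rel' (by decide))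
    ((root_R (p := 1) (q := 2) (by decide)).rel' (by decide))
    ((root_S (p := 0) (q := 1) (by decide)).rel' (by decide))
    ((root_S (p := 0) (q := 2) (by decide)).rel' (by decide))
    ((root_S (p := 1) (q := 2) (by decide)).rel' (by decide))
    ((root_L 0).rel' (by decide)) ((root_L 1).rel' (by decide)) ((root_L 2).rel' (by decide))
    (fun μ => by simpa only [co_ch, co_gen (FE _)] using trc_Cas (a := a) (b := b) (c := c) μ)
  have hV := weyl_Vd (a + b + c) (b + c) c (by omega) (by omega) top_ch hL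
    ((root_R (p := 0) (q := 1) (by decide)).sym _ _ fun μ => by funext i; fin_cases i <;> simp)
    ((root_R (p := 1) (q := 2) (by decide)).sym _ _ fun μ => by funext i; fin_cases i <;> simp)
    ((root_L 0).sym _ _ fun μ => by funext i; fin_cases i <;> simp; ring)
    ((root_L 1).sym _ _ fun μ => by funext i; fin_cases i <;> simp; ring)
    ((root_L 2).sym _ _ fun μ => by funext i; fin_cases i <;> simp; ring)
  have hm : ∀ i j k : ℕ, ev (Yf * gen a b c 1) i j k = finrank ℂ (W3 a b c ![i, j, k]) :=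
    fun i j k => by rw [ev_Yf, rank_W3 _ (congrFun co_ch)]
  have hz : ∀ (μ : G3) (p : Fin 3), (a + 2 * b + 3 * c : ℤ) < μ p → finrank ℂ (W3 a b c μ) = 0 := by
    intro μ p h
    rw [W3, Mw_bot (p := p) (by rw [Finset.mem_Icc]; omega)]
    simp
  have := eq_mu3 a b c _ (a + 2 * b + 3 * c + 1)
    (fun i j k h => by rw [hm, hz _ 0 (by simp; omega), Nat.cast_zero])
    (fun i j k h => by rw [hm, hz _ 1 (by simp; omega), Nat.cast_zero]) hV (x 0) (x 1) (x 2)
  rw [hm, show ![x 0, x 1, x 2] = x by funext i; fin_cases i <;> rfl,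
    show ![(x 0 : ℤ), x 1, x 2] = fun p => (x p : ℤ) by funext i; fin_cases i <;> rfl] at this
  exact_mod_cast this

theorem mem_W3 {μ : G3} {f : P3} :
    f ∈ W3 a b c μ ↔ f ∈ MM a b c ∧ f ∈ PH3 μ ∧ ∀ p, r3 (Lr p) f = 0 := by
  simp [W3, Mw, and_assoc, Fin.forall_fin_succ]

instance W3_fd (a b c : ℕ) (μ : G3) : FiniteDimensional ℂ (W3 a b c μ) :=
  Submodule.finiteDimensional_of_le (S₂ := MM a b c) fun _ hf => (mem_W3.1 hf).1

theorem borel_W3 {x : Fin 3 → ℕ} {w : P3} (hw : w ∈ W3 a b c fun p => x p) {B : sp6}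
    (hH : B ∈ SH) (hB : InBorel B.1) : r3 B w = chi x B • w := by
  obtain ⟨-, h2, h3⟩ := mem_W3.1 hw
  have e : (B - ∑ p, B.1 (inl p) (inr p) • Lr p).1 = Matrix.diagonal (fun i =>
      Sum.elim (fun p => B.1 (inl p) (inl p)) (fun p => -B.1 (inl p) (inl p)) i) := by
    rw [AddSubgroupClass.coe_sub, sub_eq_iff_eq_add, AddSubmonoidClass.coe_finsetSum]
    exact borelH_eq hH hB
  have := diag_act (A := B - ∑ p, B.1 (inl p) (inr p) • Lr p)
    (fun i j h => by rw [e, Matrix.diagonal_apply_ne _ h]) h2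
  rw [e] at this
  simpa [LinearMap.sum_apply, h3, chi] using this

theorem prim_zero3 {f : P3} (hf : f ∈ MM a b c) (hL : ∀ p, r3 (Lr p) f = 0)
    (h : ∀ x : Fin 3 → ℕ, ∀ w ∈ W3 a b c fun p => x p, ip w f = 0) : f = 0 := by
  classical
  have key : ∀ r, weightedHomogeneousComponent (fun u : V3 => wI u.2) r f = 0 := by
    intro r
    set g := weightedHomogeneousComponent (fun u : V3 => wI u.2) r f with hg
    have g2 : g ∈ PH3 r := weightedHomogeneousComponent_mem _ _ _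
    have g3 : ∀ p, r3 (Lr p) g = 0 := by
      intro p
      rw [hg, comp_comm (r3 (Lr p)) (Pi.single p 2) (fun f m hf => (root_L p).up hf), hL, map_zero]
    by_cases hr : ∀ p, 0 ≤ r p
    · have e : r = fun p => ((r p).toNat : ℤ) := funext fun p => (Int.toNat_of_nonneg (hr p)).symm
      have h2 := h (fun p => (r p).toNat) g
        (mem_W3.2 ⟨comp_mem (fun p _ => MM_inv _) hf r, e ▸ g2, g3⟩)
      apply ip_definite
      rw [← h2, ip, ip]
      refine Finset.sum_congr rfl fun α hα => ?_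
      rw [hg, coeff_weightedHomogeneousComponent, if_pos (g2 (mem_support_iff.1 hα))]
    · push Not at hr
      obtain ⟨p, hp⟩ := hr
      exact (root_L p).neg.unit g2 (by simpa using hp) (by rw [adj_adj, g3])
  ext α
  have := congrArg (coeff α) (key (Finsupp.weight (fun u : V3 => wI u.2) α))
  rwa [coeff_weightedHomogeneousComponent, if_pos rfl] at this

theorem model_decomp3 (a b c : ℕ) :
    ∃ E : MM a b c ≃ₗ[ℂ] ⨁ j : (Σ x : Fin 3 → ℕ, Fin (mu3 a b c x)), piMod j.1,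
      ∀ A ∈ SH, ∀ u v : MM a b c, (v : P3) = r3 A u →
        ∀ j, (E v j : MvPolynomial I ℂ) = rS A (E u j) := by
  classical
  have hadj : ∀ x ∈ SH, ∃ y ∈ SH, ∀ u v,
      (fischer V3).inner u (r3 x v) = (fischer V3).inner (r3 y u) v :=
    fun A hA => ⟨adj A, SH_adj A hA, r3_adj A⟩
  have hb : ∀ x : Fin 3 → ℕ, ∃ b' : Fin (mu3 a b c x) → P3, (∀ i, b' i ∈ W3 a b c fun p => x p) ∧
      (∀ i, b' i ≠ 0) ∧ (∀ i j, i ≠ j → ip (b' i) (b' j) = 0) ∧
      ∀ v, (∀ i, ip (b' i) v = 0) → ∀ w ∈ W3 a b c fun p => x p, ip w v = 0 := by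
    intro x
    rw [← finrank_W3]
    exact exists_orth_basis (fischer V3) _
  choose bs hb1 hb2 hb3 hb4 using hb
  let J := Σ x : Fin 3 → ℕ, Fin (mu3 a b c x)
  let w : J → P3 := fun j => bs j.1 j.2
  have hwW : ∀ j, w j ∈ W3 a b c fun p => j.1 p := fun j => hb1 _ _
  have hVH : Inv r3 SH (MM a b c) := fun A _ _ => MM_inv A
  have hNS : Neg SH h0 ⊆ SH := fun f hf => hf.1
  let C : J → Submodule ℂ P3 := fun j => cyc r3 (Neg SH h0) (w j)
  have hCV : ∀ j, C j ≤ MM a b c := fun j =>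
    cyc_le (fun A hA => hVH A (hNS hA)) (mem_W3.1 (hwW j)).1
  have hdec2 : ∀ j, ∀ A ∈ SH, ∃ c : ℂ, ∃ y ∈ Submodule.span ℂ (Neg SH h0),
      r3 A (w j) = c • w j + r3 y (w j) ∧ rS A (wPi j.1) = c • wPi j.1 + rS y (wPi j.1) := by
    intro j A hA
    obtain ⟨B, hB1, hB2, hB3⟩ := borel_dec SH_mask A hA
    exact ⟨chi j.1 B, A - B, hB3, hdec_of r3 (borel_W3 (hwW j) hB1 hB2),
      hdec_of rS (borel_wPi j.1 hB1 hB2)⟩
  have hdec : ∀ j, ∀ A ∈ SH, ∃ c : ℂ, ∃ y ∈ Submodule.span ℂ (Neg SH h0),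
      r3 A (w j) = c • w j + r3 y (w j) := by
    intro j A hA
    obtain ⟨c, y, hy, h, -⟩ := hdec2 j A hA
    exact ⟨c, y, hy, h⟩
  have hCinv : ∀ j, Inv r3 SH (C j) := fun j => cyc_inv SH_lie hNS (hdec j)
  have hh0 : ∀ j, r3 h0 (w j) = chi j.1 h0 • w j := fun j => borel_W3 (hwW j) h0_mem_SH h0_borel
  have hCmin : ∀ j, MinInv r3 SH (C j) := by
    intro j
    have : FiniteDimensional ℂ (cyc r3 (Neg SH h0) (w j)) :=
      Submodule.finiteDimensional_of_le (hCV j)
    exact minInv_cyc (fischer V3) SH_lie hadj h0_mem_SH (hh0 j) (hdec j)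
  have hprim : ∀ j, ∀ f ∈ Neg SH h0, ∀ u, ip (w j) (r3 f u) = 0 := by
    intro j f hf u
    have hs : Strict (adj f) := by
      intro i k h
      rw [adj_apply] at h
      exact neg_entry hf fun h2 => h (by rw [h2, star_zero])
    rw [r3_adj, borel_W3 (hwW j) (SH_adj f hf.1) (strict_borel hs).1]
    simp [chi, (strict_borel hs).2, ip_zero_left]
  have he : ∀ j, ∃ e : C j ≃ₗ[ℂ] piMod j.1, ∀ x ∈ SH, ∀ u v : C j, (v : P3) = r3 x u →
      (e v : MvPolynomial I ℂ) = rS x (e u) := fun j =>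
    uniq_equiv SH_lie (hh0 j) (borel_wPi j.1 h0_mem_SH h0_borel) (hb2 _ _) (wPi_ne _) (hdec2 j)
      (hCmin j) (piMod_min j.1) (mem_cyc_self _ _ _) (wPi_mem _)
  choose e he using he
  refine decomp_equiv (fischer V3) hadj hVH C (fun j => piMod j.1) hCV hCinv
    (fun j => piMod_inv j.1) ?_ ?_ e he
  · intro i j hij u hu v hv
    refine cyc_orth_cyc (fischer V3) hNS hadj (hCinv i) ?_ (hprim j) v hv u hu
    obtain ⟨x, i⟩ := i
    obtain ⟨y, j⟩ := j
    by_cases hxy : x = y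
    · subst hxy
      exact hb3 x j i fun h => hij (by rw [h])
    · refine ip_hom_ne (w := fun u : V3 => wI u.2) (mem_W3.1 (hwW ⟨y, j⟩)).2.1
        (mem_W3.1 (hwW ⟨x, i⟩)).2.1 fun h => hxy (funext fun p => ?_)
      have := congrFun h p
      simp only at this
      omega
  · intro U hU hinv horth
    by_contra hU0
    obtain ⟨f, hf, hf0, hL⟩ := exists_prim (fun u : V3 => ht u.2)
      (Set.range fun p => big3 (Lr p).1) (by
        rintro _ ⟨p, rfl⟩ u v h
        exact strict_Lr p _ _ (big3_ne h)) U (by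
        rintro _ ⟨p, rfl⟩ f hf
        rw [← r3_apply]; exact hinv _ (Lr_mem_SH p) f hf) hU0 (3 * (a + 2 * b + 3 * c)) (by
        intro f hf α hα
        have h1 := mem_HN (MM_le a b c (hU hf)) hα
        rw [weight_sum]
        simp only [Fintype.sum_prod_type, Fintype.sum_sum_type, Fin.sum_univ_three, ht_inl, ht_inr,
          nsmul_eq_mul] at h1 ⊢
        simp only [Fin.val_zero, Fin.val_one, Fin.val_two]
        omega)
    apply hf0
    apply prim_zero3 (hU hf) (fun p => by rw [r3_apply]; exact hL _ ⟨p, rfl⟩)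
    intro x
    apply hb4
    intro i
    exact horth ⟨x, i⟩ _ (mem_cyc_self _ _ _) f hf

theorem main3 (a b c : ℕ) (V : Type*) [AddCommGroup V] [Module ℂ V] [LieRingModule sp6 V]
    [LieModule ℂ sp6 V] [LieModule.IsIrreducible ℂ sp6 V] (v : V) (hv : v ≠ 0)
    (hw : ∀ A : sp6, InBorel A.1 → ⁅A, v⁆ = (((a : ℂ) + b + c) * A.1 (inl 0) (inl 0) +
      ((b : ℂ) + c) * A.1 (inl 1) (inl 1) + c * A.1 (inl 2) (inl 2)) • v) :
    ∃ e : V ≃ₗ[ℂ] ⨁ j : (Σ x : Fin 3 → ℕ, Fin (mu3 a b c x)), piMod j.1,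
      ∀ A : sp6, InH A.1 → ∀ (u : V) (j : Σ x : Fin 3 → ℕ, Fin (mu3 a b c x)),
        (e ⁅A, u⁆ j : MvPolynomial I ℂ) = act A.1 (e u j : MvPolynomial I ℂ) := by
  let ρ := LieModule.toEnd ℂ sp6 V
  have hmin : MinInv ρ Set.univ ⊤ := by
    refine ⟨fun _ _ _ _ => trivial, fun U _ hU => ?_⟩
    let N : LieSubmodule ℂ sp6 V := { U with lie_mem := fun {x m} hm => hU x trivial m hm }
    rcases eq_bot_or_eq_top N with h | h
    · left; exact congrArg LieSubmodule.toSubmodule h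
    · right; exact congrArg LieSubmodule.toSubmodule h
  obtain ⟨e1, he1⟩ := uniq_equiv (ρ := ρ) (ρ' := r3) (S := Set.univ) (fun _ _ _ _ => trivial)
    (hw h0 h0_borel) (borel_g3 a b c h0_borel) hv (g3_ne a b c) (by
      intro A hA
      obtain ⟨B, -, hB2, hB3⟩ := borel_dec (S := Set.univ) (fun _ _ _ _ => trivial) A hA
      exact ⟨_, A - B, hB3, hdec_of ρ (hw B hB2), hdec_of r3 (borel_g3 a b c hB2)⟩)
    hmin (MM_min a b c) trivial (mem_cyc_self _ _ _)
  obtain ⟨E, hE⟩ := model_decomp3 a b c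
  refine ⟨(Submodule.topEquiv.symm.trans e1).trans E, fun A hA u j => ?_⟩
  rw [← actL_apply, ← rS_apply]
  exact hE A hA _ _ (he1 A trivial ⟨u, trivial⟩ ⟨⁅A, u⁆, trivial⟩ rfl) j

end Pool.Agent.Work.MP_cdf40b_al.Hedge
end
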